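import Pool.Agent.Work.MP_9d4f6b_lc.Def

/-!
MP_9d4f6b_lc, second theorem (hardness with three strategies). Definitions (FIXED FILE, nothing to prove).

THE THEOREM. Let K ≥ 3. If it is decidable whether a 3-player game in which player 1 has exactly K
pure strategies has a rational Nash equilibrium, then it is decidable whether w^2 = D(x_0,…,x_(K-1)),
D an integral form of even degree 2d > 0, has a rational solution with x ≠ 0.

GADGET. Player 1: Fin K (mixed strategy t). Player 2: Fin 2 ⊕ Y (two switches g, and Y).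
Player 3: Fin 2 ⊕ (Fin 2 ⊕ C) (two switches h, two base strategies e, constraints c).
-/

set_option linter.unusedVariables false
set_option linter.style.longLine false

namespace Pool.Agent.Work.MP_9d4f6b_lc.H

/-! ### The 2 x 2 x 2 game with the only equilibrium over Q(sqrt 11) -/

/-- payoff of player 1 (strategies i ≥ 2 are dominated). Difference of 1 and 0: -1 + 2v + 2uv,
u = probability of g = 1, v = probability of h = 1 -/
def g1 (i g h : ℕ) : ℕ :=
  if i = 0 then 2 else if i = 1 then (if h = 0 then 1 else if g = 0 then 3 else 5) else 0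

/-- payoff of player 2. Difference of g = 1 and g = 0: -1 + 2t + 2v, t = probability of i = 1 -/
def g2 (i g h : ℕ) : ℕ :=
  if g = 0 then 3 else if i = 1 then (if h = 0 then 4 else 6) else (if h = 0 then 2 else 4)

/-- payoff of player 3. Difference of h = 1 and h = 0: 1 - 2u - tu -/
def g3 (i g h : ℕ) : ℕ :=
  if h = 0 then 3 else if g = 0 then 4 else if i = 1 then 1 else 2

/-! ### The gadget game -/

section gadget

variable {K : ℕ} {Y C : Type}

def u1 (A : Fin K → Y → Fin 2 → ℕ) : Fin K → (Fin 2 ⊕ Y) → (Fin 2 ⊕ (Fin 2 ⊕ C)) → ℕ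
  | i, Sum.inl g, Sum.inl h => g1 i g h
  | i, Sum.inr y, Sum.inr (Sum.inl e) => A i y e
  | _, _, _ => 0

def u2 : Fin K → (Fin 2 ⊕ Y) → (Fin 2 ⊕ (Fin 2 ⊕ C)) → ℕ
  | i, Sum.inl g, Sum.inl h => g2 i g h
  | _, Sum.inl _, Sum.inr (Sum.inl _) => 0
  | _, Sum.inl _, Sum.inr (Sum.inr _) => 2
  | _, Sum.inr _, Sum.inr (Sum.inl _) => 1
  | _, Sum.inr _, _ => 0

def u3 (N : ℕ) (B : C → Fin K → Y → ℕ) : Fin K → (Fin 2 ⊕ Y) → (Fin 2 ⊕ (Fin 2 ⊕ C)) → ℕ
  | i, Sum.inl g, Sum.inl h => N + g3 i g h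
  | _, Sum.inl _, Sum.inr _ => 0
  | _, Sum.inr _, Sum.inl _ => N
  | _, Sum.inr _, Sum.inr (Sum.inl _) => N
  | i, Sum.inr y, Sum.inr (Sum.inr c) => B c i y

/-- probability vector -/
def IsPr {α : Type} [Fintype α] (x : α → ℚ) : Prop := (∀ a, 0 ≤ x a) ∧ ∑ a, x a = 1

/-- the system coded by the gadget -/
def Sys [Fintype Y] [Fintype C] (N : ℕ) (A : Fin K → Y → Fin 2 → ℕ) (B : C → Fin K → Y → ℕ) : Prop :=
  ∃ (t : Fin K → ℚ) (y : Y → ℚ) (z : Fin 2 → ℚ), IsPr t ∧ IsPr y ∧ IsPr z ∧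
    (∀ c, ∑ i, ∑ b, t i * y b * (B c i b : ℚ) ≤ N) ∧
    (∀ i₀, ∑ b, ∑ e, y b * z e * (A i₀ b e : ℚ) ≤ ∑ i, ∑ b, ∑ e, t i * y b * z e * (A i b e : ℚ))

end gadget

/-! ### Forms -/

/-- a polynomial in the variables x_0 … x_(K-1): list of terms (coefficient, word) -/
abbrev Frm (K : ℕ) := List (ℤ × List (Fin K))

/-- value of the polynomial -/
def evalF {K : ℕ} (D : Frm K) (x : Fin K → ℚ) : ℚ := (D.map fun m => (m.1 : ℚ) * (m.2.map x).prod).sum

/-- all terms have degree r -/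
def Hom {K : ℕ} (r : ℕ) (D : Frm K) : Prop := ∀ m ∈ D, m.2.length = r

/-- rational point over the affine cube x_j = 1, |x_i| ≤ 1 -/
def Chart {K : ℕ} (j : Fin K) (D : Frm K) : Prop :=
  ∃ (x : Fin K → ℚ) (w : ℚ), x j = 1 ∧ (∀ i, |x i| ≤ 1) ∧ w ^ 2 = evalF D x

/-- rational point over the affine space x_j = 1 -/
def Aff {K : ℕ} (j : Fin K) (D : Frm K) : Prop :=
  ∃ (x : Fin K → ℚ) (w : ℚ), x j = 1 ∧ w ^ 2 = evalF D x

/-- rational point of the double cover -/
def Pt {K : ℕ} (D : Frm K) : Prop := ∃ (x : Fin K → ℚ) (w : ℚ), x ≠ 0 ∧ w ^ 2 = evalF D x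

/-! ### The system of a form. Y = {P0, P1} ⊕ (positions × sign), C = interior ⊕ positions × 4 -/

section sys

variable {K T r : ℕ}

/-- a position: term and place in the word -/
abbrev Pos (T r : ℕ) := Fin T × Fin r

abbrev YY (T r : ℕ) := Fin 2 ⊕ (Pos T r × Fin 2)

abbrev CC (K T r : ℕ) := Fin K ⊕ (Pos T r × Fin 4)

/-- coefficient of the variable t_i in x_l (for t in the simplex): x_j = 1, x_l = 3 K t_l - 2 -/
def XX (j l i : Fin K) : ℤ := if l = j then 1 else if i = l then 3 * K - 2 else -2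

/-- functional P0 -/
def cP : YY T r → ℤ
  | Sum.inl e => if e = 0 then 1 else 0
  | Sum.inr _ => 0

/-- functional V_s = y_(s,0) - y_(s,1) -/
def cV (s : Pos T r) : YY T r → ℤ
  | Sum.inl _ => 0
  | Sum.inr (s', σ) => if s' = s then (if σ = 0 then 1 else -1) else 0

/-- functional y_(s,0) + y_(s,1) -/
def cS (s : Pos T r) : YY T r → ℤ
  | Sum.inl _ => 0
  | Sum.inr (s', σ) => if s' = s then 1 else 0

/-- functional of the previous position (P0 at the beginning of a word) -/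
def cQ (s : Pos T r) : YY T r → ℤ :=
  if h : s.2.val = 0 then cP else cV (s.1, ⟨s.2.val - 1, by omega⟩)

/-- constraints; the condition is: value ≤ 0 -/
def BZ (j : Fin K) (let' : Pos T r → Fin K) : CC K T r → Fin K → YY T r → ℤ
  | Sum.inl i₀, i, _ => 1 - (if i = i₀ then 3 * K else 0)
  | Sum.inr (s, ρ), i, b =>
    if ρ = 0 then cS s b - cP b
    else if ρ = 1 then cP b - cS s b
    else if ρ = 2 then cV s b - XX j (let' s) i * cQ s b
    else XX j (let' s) i * cQ s b - cV s b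

/-- functional L = sum of coefficient times V at the end of the word -/
def cL (co : Fin T → ℤ) : YY T r → ℤ
  | Sum.inl _ => 0
  | Sum.inr ((τ, p), σ) => if p.val + 1 = r then (if σ = 0 then co τ else - co τ) else 0

/-- payoffs of player 1: A_0 = p1 q0 - p0 q1, A_1 = p1 q1 - L q0, A_i = 0 for i ≥ 2 -/
def AZ (co : Fin T → ℤ) (i : ℕ) (b : YY T r) (e : Fin 2) : ℤ :=
  if i = 0 then
    (if b = Sum.inl 1 ∧ e = 0 then 1 else if b = Sum.inl 0 ∧ e = 1 then -1 else 0)
  else if i = 1 then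
    (if b = Sum.inl 1 ∧ e = 1 then 1 else if e = 0 then - cL co b else 0)
  else 0

/-- abstract system over ℤ -/
def ZSys (j : Fin K) (let' : Pos T r → Fin K) (co : Fin T → ℤ) : Prop :=
  ∃ (t : Fin K → ℚ) (y : YY T r → ℚ) (z : Fin 2 → ℚ), IsPr t ∧ IsPr y ∧ IsPr z ∧
    (∀ c, ∑ i, ∑ b, t i * y b * (BZ j let' c i b : ℚ) ≤ 0) ∧
    (∀ i₀ : Fin K, ∑ b, ∑ e, y b * z e * (AZ co i₀ b e : ℚ) ≤
      ∑ i : Fin K, ∑ b, ∑ e, t i * y b * z e * (AZ co i b e : ℚ))

end sys

/-- letter of D at a position -/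
def lett {K : ℕ} (j : Fin K) (r : ℕ) (D : Frm K) (s : Pos D.length r) : Fin K :=
  (D.get s.1).2.getD s.2 j

/-- coefficient of D -/
def coef {K : ℕ} (D : Frm K) (τ : Fin D.length) : ℤ := (D.get τ).1

/-! ### Index functions (positions are numbered by p + r * τ) -/

def iP {T r : ℕ} (s : Pos T r) : ℕ := s.2.val + r * s.1.val

def iY {T r : ℕ} : YY T r → ℕ
  | Sum.inl e => e.val
  | Sum.inr (s, σ) => 2 + (σ.val + 2 * iP s)

def iC {K T r : ℕ} : CC K T r → ℕ
  | Sum.inl i => i.val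
  | Sum.inr (s, ρ) => K + (ρ.val + 4 * iP s)

def i2 {T r : ℕ} : Fin 2 ⊕ YY T r → ℕ
  | Sum.inl g => g.val
  | Sum.inr b => 2 + iY b

def i3 {K T r : ℕ} : Fin 2 ⊕ (Fin 2 ⊕ CC K T r) → ℕ
  | Sum.inl h => h.val
  | Sum.inr (Sum.inl e) => 2 + e.val
  | Sum.inr (Sum.inr c) => 2 + (2 + iC c)

/-! ### The game as a list of natural numbers -/

section code

variable {K : ℕ}

/-- word letter number s / r, s % r as a natural number -/
def lettN (j : Fin K) (r : ℕ) (D : Frm K) (s : ℕ) : ℕ :=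
  ((D.getD (s / r) (0, [])).2.getD (s % r) j).val

def coefN (r : ℕ) (D : Frm K) (s : ℕ) : ℤ := (D.getD (s / r) (0, [])).1

/-- shift of the payoffs of player 1 -/
def shA (D : Frm K) : ℕ := 1 + (D.map fun m => m.1.natAbs).sum

/-- payoff of player 1 on (i, b, e), b < 2 + 2 * S, e < 2 -/
def payA (r : ℕ) (D : Frm K) (i b e : ℕ) : ℕ :=
  if i = 0 then
    (if b = 1 ∧ e = 0 then shA D + 1 else if b = 0 ∧ e = 1 then shA D - 1 else shA D)
  else if i = 1 then
    (if b < 2 then (if b = 1 ∧ e = 1 then shA D + 1 else shA D)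
      else if e = 0 ∧ ((b - 2) / 2) % r + 1 = r then
        (if (b - 2) % 2 = 0
          then shA D + (- coefN r D ((b - 2) / 2)).toNat - (coefN r D ((b - 2) / 2)).toNat
          else shA D + (coefN r D ((b - 2) / 2)).toNat - (- coefN r D ((b - 2) / 2)).toNat)
      else shA D)
  else shA D

/-- shifted coefficient XX: 3 K + XX j l i with natural numbers l, i -/
def XN (K : ℕ) (j l i : ℕ) : ℕ := if l = j then 3 * K + 1 else if i = l then 6 * K - 2 else 3 * K - 2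

/-- 3 K + XX j l i * q and 3 K - XX j l i * q for q in {-1,0,1} coded by 0,1,2 -/
def XQ (K j l i q : ℕ) (neg : Bool) : ℕ :=
  if q = 1 then 3 * K
  else if (q = 2 ∧ neg = false) ∨ (q ≠ 2 ∧ neg = true) then XN K j l i else 6 * K - XN K j l i

/-- value in {-1,0,1}, coded by 0,1,2, of the functional V_s at b -/
def VN (s b : ℕ) : ℕ := if b < 2 then 1 else if (b - 2) / 2 = s then (if (b - 2) % 2 = 0 then 2 else 0) else 1

/-- the same for the previous position -/
def QN (r s b : ℕ) : ℕ := if s % r = 0 then (if b = 0 then 2 else 1) else VN (s - 1) b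

/-- the same for the sum y_(s,0) + y_(s,1) minus P0 -/
def SN (s b : ℕ) : ℕ := if b = 0 then 0 else if b = 1 then 1 else if (b - 2) / 2 = s then 2 else 1

/-- payoff of player 3 on (i, b, c) , b < 2 + 2 * S, c < K + 4 * S: this is N + BZ with N = 3 K + 1 -/
def payB (j : Fin K) (r : ℕ) (D : Frm K) (i b c : ℕ) : ℕ :=
  if c < K then (if i = c then 2 else 3 * K + 2)
  else if (c - K) % 4 = 0 then 3 * K + SN ((c - K) / 4) b
  else if (c - K) % 4 = 1 then 3 * K + 2 - SN ((c - K) / 4) b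
  else if (c - K) % 4 = 2 then
    VN ((c - K) / 4) b + XQ K j (lettN j r D ((c - K) / 4)) i (QN r ((c - K) / 4) b) true
  else XQ K j (lettN j r D ((c - K) / 4)) i (QN r ((c - K) / 4) b) false + 2 - VN ((c - K) / 4) b

/-- structured payoffs of player 1 in the system part -/
def AN (r : ℕ) (D : Frm K) : Fin K → YY D.length r → Fin 2 → ℕ := fun i b e =>
  ((shA D : ℤ) + AZ (coef D) i b e).toNat

/-- structured payoffs of player 3 for the constraints -/
def BN (j : Fin K) (r : ℕ) (D : Frm K) : CC K D.length r → Fin K → YY D.length r → ℕ := fun c i b =>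
  ((3 * K + 1 : ℕ) + BZ j (lett j r D) c i b).toNat

/-- all payoffs; p = player, a, b, c strategies -/
def payN (j : Fin K) (r : ℕ) (D : Frm K) (p a b c : ℕ) : ℕ :=
  if p = 0 then
    (if b < 2 then (if c < 2 then g1 a b c else 0)
      else if 2 ≤ c ∧ c < 4 then payA r D a (b - 2) (c - 2) else 0)
  else if p = 1 then
    (if b < 2 then (if c < 2 then g2 a b c else if c < 4 then 0 else 2)
      else if 2 ≤ c ∧ c < 4 then 1 else 0)
  else
    (if b < 2 then (if c < 2 then 3 * K + 1 + g3 a b c else 0)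
      else if c < 4 then 3 * K + 1 else payB j r D a (b - 2) (c - 4))

/-- numbers of strategies of players 2 and 3 -/
def mN (r : ℕ) (D : Frm K) : ℕ := 2 + (2 + (D.length * r) * 2)

def nN (r : ℕ) (D : Frm K) : ℕ := 2 + (2 + (K + (D.length * r) * 4))

/-- the game -/
def gameN (j : Fin K) (r : ℕ) (D : Frm K) : ℕ × ℕ × ℕ × List ℕ :=
  (K, mN r D, nN r D, (List.range (3 * K * mN r D * nN r D)).map fun s =>
    payN j r D (s / (K * mN r D * nN r D)) (s / (mN r D * nN r D) % K) (s / nN r D % mN r D) (s % nN r D))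

end code

/-- the game coded by g has a rational Nash equilibrium (the predicate of S15117) -/
def HasNE (g : ℕ × ℕ × ℕ × List ℕ) : Prop :=
  ∃ (x : Fin g.1 → ℚ) (y : Fin g.2.1 → ℚ) (z : Fin g.2.2.1 → ℚ),
    (∀ a, 0 ≤ x a) ∧ (∑ a, x a = 1) ∧
    (∀ b, 0 ≤ y b) ∧ (∑ b, y b = 1) ∧
    (∀ c, 0 ≤ z c) ∧ (∑ c, z c = 1) ∧
    (∀ a₀ : Fin g.1,
      ∑ b, ∑ c, y b * z c *
          ((g.2.2.2.getD (((0 * g.1 + a₀.val) * g.2.1 + b.val) * g.2.2.1 + c.val) 0 : ℕ) : ℚ)
        ≤ ∑ a, ∑ b, ∑ c, x a * y b * z c *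
          ((g.2.2.2.getD (((0 * g.1 + a.val) * g.2.1 + b.val) * g.2.2.1 + c.val) 0 : ℕ) : ℚ)) ∧
    (∀ b₀ : Fin g.2.1,
      ∑ a, ∑ c, x a * z c *
          ((g.2.2.2.getD (((1 * g.1 + a.val) * g.2.1 + b₀.val) * g.2.2.1 + c.val) 0 : ℕ) : ℚ)
        ≤ ∑ a, ∑ b, ∑ c, x a * y b * z c *
          ((g.2.2.2.getD (((1 * g.1 + a.val) * g.2.1 + b.val) * g.2.2.1 + c.val) 0 : ℕ) : ℚ)) ∧
    (∀ c₀ : Fin g.2.2.1,
      ∑ a, ∑ b, x a * y b *
          ((g.2.2.2.getD (((2 * g.1 + a.val) * g.2.1 + b.val) * g.2.2.1 + c₀.val) 0 : ℕ) : ℚ)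
        ≤ ∑ a, ∑ b, ∑ c, x a * y b * z c *
          ((g.2.2.2.getD (((2 * g.1 + a.val) * g.2.1 + b.val) * g.2.2.1 + c.val) 0 : ℕ) : ℚ))

end Pool.Agent.Work.MP_9d4f6b_lc.H
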