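import Pool.Agent.Work.MP_9d4f6b_lc.Sym
import Pool.Agent.Work.MP_9d4f6b_lc.H.Defs

/-!
MODULE SUPP (S). Best responses. In a Nash equilibrium a strategy played with nonzero probability is
optimal. PROOF of opt1: write the total payoff as ∑ a, x a * U a with U a = ∑ b, ∑ c, y b * z c * u1 a b c
(fac3 in Sym). By n1 U a₀ ≤ V := ∑ x a U a for all a₀. If x a ≠ 0 and U a < V then
∑ x a' (V - U a') > 0 (all terms ≥ 0, one > 0), but the sum is V - V = 0 because ∑ x = 1. Hence U a = V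
and U a' ≤ V = U a. The same for players 2 and 3 (com12, com13 in Sym).
Conversely nash_of: if every strategy with nonzero probability is optimal then IsNE.
-/

set_option linter.unusedVariables false
set_option linter.style.longLine false

namespace Pool.Agent.Work.MP_9d4f6b_lc.H

section

variable {A B C : Type} [Fintype A] [Fintype B] [Fintype C]

theorem supp_eq (x f : A → ℚ) (hx : ∀ a, 0 ≤ x a) (h1 : ∑ a, x a = 1)
    (hf : ∀ a₀, f a₀ ≤ ∑ a, x a * f a) (a : A) (ha : x a ≠ 0) : f a = ∑ a, x a * f a := by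
  by_contra hne
  set V := ∑ a, x a * f a with hV
  have hlt : f a < V := lt_of_le_of_ne (hf a) hne
  have h0 : ∑ a', x a' * (V - f a') = 0 := by
    simp only [mul_sub, Finset.sum_sub_distrib, ← Finset.sum_mul, h1, one_mul]
    rw [← hV, sub_self]
  have h2 := (Finset.sum_eq_zero_iff_of_nonneg
    (fun i _ => mul_nonneg (hx i) (sub_nonneg.2 (hf i)))).1 h0 a (Finset.mem_univ a)
  rcases mul_eq_zero.1 h2 with h3 | h3
  · exact ha h3
  · linarith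

private theorem le_avg (x f : A → ℚ) (hx : IsPr x) (a₀ : A) (h : ∀ a, x a ≠ 0 → f a₀ ≤ f a) :
    f a₀ ≤ ∑ a, x a * f a := by
  calc f a₀ = ∑ a, x a * f a₀ := by rw [← Finset.sum_mul, hx.2, one_mul]
    _ ≤ ∑ a, x a * f a := by
        refine Finset.sum_le_sum fun a _ => ?_
        by_cases h0 : x a = 0
        · rw [h0, zero_mul, zero_mul]
        · exact mul_le_mul_of_nonneg_left (h a h0) (hx.1 a)

private theorem tot2 (x : A → ℚ) (y : B → ℚ) (z : C → ℚ) (u : A → B → C → ℚ) :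
    ∑ a, ∑ b, ∑ c, x a * y b * z c * u a b c = ∑ b, y b * ∑ a, ∑ c, x a * z c * u a b c := by
  rw [← com12 x y z u, fac3 y x z (fun b a c => u a b c)]

private theorem tot3 (x : A → ℚ) (y : B → ℚ) (z : C → ℚ) (u : A → B → C → ℚ) :
    ∑ a, ∑ b, ∑ c, x a * y b * z c * u a b c = ∑ c, z c * ∑ a, ∑ b, x a * y b * u a b c := by
  rw [← com23 x y z u, ← com12 x z y (fun a c b => u a b c), fac3 z x y (fun c a b => u a b c)]

theorem opt1 {u1 u2 u3 : A → B → C → ℕ} {x : A → ℚ} {y : B → ℚ} {z : C → ℚ}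
    (h : IsNE u1 u2 u3 x y z) (a : A) (ha : x a ≠ 0) (a' : A) :
    ∑ b, ∑ c, y b * z c * (u1 a' b c : ℚ) ≤ ∑ b, ∑ c, y b * z c * (u1 a b c : ℚ) := by
  have h1 := h.n1
  rw [fac3 x y z (fun a b c => (u1 a b c : ℚ))] at h1
  rw [supp_eq x (fun a => ∑ b, ∑ c, y b * z c * (u1 a b c : ℚ)) h.x0 h.x1 h1 a ha]
  exact h1 a'

theorem opt2 {u1 u2 u3 : A → B → C → ℕ} {x : A → ℚ} {y : B → ℚ} {z : C → ℚ}
    (h : IsNE u1 u2 u3 x y z) (b : B) (hb : y b ≠ 0) (b' : B) :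
    ∑ a, ∑ c, x a * z c * (u2 a b' c : ℚ) ≤ ∑ a, ∑ c, x a * z c * (u2 a b c : ℚ) := by
  have h1 := h.n2
  rw [tot2 x y z (fun a b c => (u2 a b c : ℚ))] at h1
  rw [supp_eq y (fun b => ∑ a, ∑ c, x a * z c * (u2 a b c : ℚ)) h.y0 h.y1 h1 b hb]
  exact h1 b'

theorem opt3 {u1 u2 u3 : A → B → C → ℕ} {x : A → ℚ} {y : B → ℚ} {z : C → ℚ}
    (h : IsNE u1 u2 u3 x y z) (c : C) (hc : z c ≠ 0) (c' : C) :
    ∑ a, ∑ b, x a * y b * (u3 a b c' : ℚ) ≤ ∑ a, ∑ b, x a * y b * (u3 a b c : ℚ) := by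
  have h1 := h.n3
  rw [tot3 x y z (fun a b c => (u3 a b c : ℚ))] at h1
  rw [supp_eq z (fun c => ∑ a, ∑ b, x a * y b * (u3 a b c : ℚ)) h.z0 h.z1 h1 c hc]
  exact h1 c'

theorem nash_of {u1 u2 u3 : A → B → C → ℕ} {x : A → ℚ} {y : B → ℚ} {z : C → ℚ}
    (hx : IsPr x) (hy : IsPr y) (hz : IsPr z)
    (h1 : ∀ a, x a ≠ 0 → ∀ a', ∑ b, ∑ c, y b * z c * (u1 a' b c : ℚ) ≤
      ∑ b, ∑ c, y b * z c * (u1 a b c : ℚ))
    (h2 : ∀ b, y b ≠ 0 → ∀ b', ∑ a, ∑ c, x a * z c * (u2 a b' c : ℚ) ≤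
      ∑ a, ∑ c, x a * z c * (u2 a b c : ℚ))
    (h3 : ∀ c, z c ≠ 0 → ∀ c', ∑ a, ∑ b, x a * y b * (u3 a b c' : ℚ) ≤
      ∑ a, ∑ b, x a * y b * (u3 a b c : ℚ)) : IsNE u1 u2 u3 x y z := by
  refine ⟨hx.1, hx.2, hy.1, hy.2, hz.1, hz.2, fun a₀ => ?_, fun b₀ => ?_, fun c₀ => ?_⟩
  · rw [fac3 x y z (fun a b c => (u1 a b c : ℚ))]
    exact le_avg x (fun a => ∑ b, ∑ c, y b * z c * (u1 a b c : ℚ)) hx a₀ (fun a ha => h1 a ha a₀)
  · rw [tot2 x y z (fun a b c => (u2 a b c : ℚ))]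
    exact le_avg y (fun b => ∑ a, ∑ c, x a * z c * (u2 a b c : ℚ)) hy b₀ (fun b hb => h2 b hb b₀)
  · rw [tot3 x y z (fun a b c => (u3 a b c : ℚ))]
    exact le_avg z (fun c => ∑ a, ∑ b, x a * y b * (u3 a b c : ℚ)) hz c₀ (fun c hc => h3 c hc c₀)

end

end Pool.Agent.Work.MP_9d4f6b_lc.H
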