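import Pool.Agent.Work.MP_9d4f6b_lc.H.Defs

/-!
MODULE CHARTS (S-M). PROOF. evalF D (c x) = c^(2d) evalF D x for Hom (2 d) D (each term: product over a
list of length 2 d of c * x_l is c^(2d) times the product). Given (x, w), x ≠ 0, take j with |x j| maximal,
so x j ≠ 0; x' = x / x j, w' = w / (x j)^d. Conversely Aff j D gives Pt D because x j = 1 ≠ 0.
-/

set_option linter.unusedVariables false
set_option linter.style.longLine false

namespace Pool.Agent.Work.MP_9d4f6b_lc.H

section

variable {K : ℕ}

private theorem word_smul (c : ℚ) (x : Fin K → ℚ) (l : List (Fin K)) :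
    (l.map fun i => c * x i).prod = c ^ l.length * (l.map x).prod := by
  induction l with
  | nil => simp
  | cons a l ih =>
    rw [List.map_cons, List.prod_cons, ih, List.map_cons, List.prod_cons, List.length_cons,
      pow_succ]
    ring

theorem evalF_smul (d : ℕ) (D : Frm K) (hD : Hom (2 * d) D) (c : ℚ) (x : Fin K → ℚ) :
    evalF D (fun i => c * x i) = (c ^ d) ^ 2 * evalF D x := by
  unfold evalF
  induction D with
  | nil => simp
  | cons m D ih =>
    have h1 : m.2.length = 2 * d := hD m (List.mem_cons_self ..)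
    have h2 : Hom (2 * d) D := fun m' hm' => hD m' (List.mem_cons_of_mem _ hm')
    rw [List.map_cons, List.sum_cons, ih h2, List.map_cons, List.sum_cons, word_smul, h1,
      mul_comm 2 d, pow_mul]
    ring

theorem chart_of_pt (d : ℕ) (D : Frm K) (hD : Hom (2 * d) D) (h : Pt D) : ∃ j, Chart j D := by
  obtain ⟨x, w, hx, hw⟩ := h
  have hne : (Finset.univ : Finset (Fin K)).Nonempty := by
    by_contra hne
    apply hx
    funext i
    exact absurd ⟨i, Finset.mem_univ i⟩ hne
  obtain ⟨j, -, hj⟩ := Finset.exists_max_image Finset.univ (fun i => |x i|) hne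
  have hxj : x j ≠ 0 := by
    intro h0
    apply hx
    funext i
    have h1 := hj i (Finset.mem_univ i)
    rw [h0, abs_zero] at h1
    exact abs_eq_zero.1 (le_antisymm h1 (abs_nonneg _))
  refine ⟨j, fun i => (x j)⁻¹ * x i, ((x j)⁻¹) ^ d * w, inv_mul_cancel₀ hxj, fun i => ?_, ?_⟩
  · rw [abs_mul, abs_inv, inv_mul_le_iff₀ (abs_pos.2 hxj), mul_one]
    exact hj i (Finset.mem_univ i)
  · rw [evalF_smul d D hD, mul_pow, hw]

theorem pt_of_aff (j : Fin K) (D : Frm K) (h : Aff j D) : Pt D := by
  obtain ⟨x, w, hj, hw⟩ := h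
  refine ⟨x, w, fun h0 => ?_, hw⟩
  rw [h0] at hj
  exact zero_ne_one hj

end

end Pool.Agent.Work.MP_9d4f6b_lc.H
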