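import Pool.Agent.Work.MP_9d4f6b_lc.H.Defs

/-!
MODULE PAYEQ (M-L). The payoff function on natural numbers equals the structured one. PROOF. Cases on
the sum types; for a position s = (τ, p): iP s = p + r τ, iP s / r = τ, iP s % r = p (p < r, so r > 0),
iP injective, iP (τ, p - 1) = iP (τ, p) - 1 for p > 0 and iP s % r = 0 ↔ p = 0; D.getD τ = D.get τ for τ < length;
toNat of the shifted integers by case distinction (omega). Player 1: (2 + e) - 2 = e etc.
-/

set_option linter.unusedVariables false
set_option linter.style.longLine false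

namespace Pool.Agent.Work.MP_9d4f6b_lc.H

section

variable {K : ℕ}

private theorem iP_div {T r : ℕ} (s : Pos T r) : iP s / r = s.1.val := by
  have h := s.2.isLt
  have hr : 0 < r := by omega
  rw [iP, Nat.add_mul_div_left _ _ hr, Nat.div_eq_of_lt h, zero_add]

private theorem iP_mod {T r : ℕ} (s : Pos T r) : iP s % r = s.2.val := by
  have h := s.2.isLt
  rw [iP, Nat.add_mul_mod_self_left, Nat.mod_eq_of_lt h]

private theorem iP_inj {T r : ℕ} {s s' : Pos T r} (h : iP s = iP s') : s = s' := by
  have h1 := iP_div s
  have h2 := iP_div s'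
  have h3 := iP_mod s
  have h4 := iP_mod s'
  rw [h] at h1 h3
  have h5 : s.1.val = s'.1.val := by omega
  have h6 : s.2.val = s'.2.val := by omega
  exact Prod.ext (Fin.ext h5) (Fin.ext h6)

private theorem coefN_eq (r : ℕ) (D : Frm K) (s : Pos D.length r) : coefN r D (iP s) = coef D s.1 := by
  rw [coefN, iP_div, coef, List.getD_eq_getElem _ _ s.1.isLt]
  rfl

private theorem lettN_eq (j : Fin K) (r : ℕ) (D : Frm K) (s : Pos D.length r) :
    lettN j r D (iP s) = (lett j r D s).val := by
  rw [lettN, iP_div, iP_mod, lett, List.getD_eq_getElem D _ s.1.isLt]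
  rfl

private theorem VN_eq {T r : ℕ} (s : Pos T r) (b : YY T r) : (VN (iP s) (iY b) : ℤ) = cV s b + 1 := by
  rcases b with e | ⟨s', σ⟩
  · have h := e.isLt
    simp [VN, iY, cV, h]
  · have h := σ.isLt
    have h1 : (2 + (σ.val + 2 * iP s') - 2) / 2 = iP s' := by omega
    have h2 : (2 + (σ.val + 2 * iP s') - 2) % 2 = σ.val := by omega
    have h3 : ¬ (2 + (σ.val + 2 * iP s') < 2) := by omega
    simp only [VN, iY, cV, h1, h2, h3, if_false]
    by_cases hs : s' = s
    · subst hs
      by_cases hσ : σ = 0
      · subst hσ; simp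
      · have : σ.val ≠ 0 := fun h => hσ (Fin.ext h)
        simp [hσ, this]
    · have : iP s' ≠ iP s := fun h => hs (iP_inj h)
      simp [hs, this]

private theorem SN_eq {T r : ℕ} (s : Pos T r) (b : YY T r) :
    (SN (iP s) (iY b) : ℤ) = cS s b - cP b + 1 := by
  rcases b with e | ⟨s', σ⟩
  · fin_cases e <;> simp [SN, iY, cS, cP]
  · have h := σ.isLt
    have h1 : (2 + (σ.val + 2 * iP s') - 2) / 2 = iP s' := by omega
    have h3 : ¬ (2 + (σ.val + 2 * iP s') = 0) := by omega
    have h4 : ¬ (2 + (σ.val + 2 * iP s') = 1) := by omega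
    simp only [SN, iY, cS, cP, h1, h3, h4, if_false]
    by_cases hs : s' = s
    · subst hs
      simp
    · have : iP s' ≠ iP s := fun h => hs (iP_inj h)
      simp [hs, this]

private theorem QN_eq {T r : ℕ} (s : Pos T r) (b : YY T r) :
    (QN r (iP s) (iY b) : ℤ) = cQ s b + 1 := by
  rw [QN, iP_mod]
  by_cases h : s.2.val = 0
  · simp only [h, if_true, cQ, dite_true]
    rcases b with e | ⟨s', σ⟩
    · fin_cases e <;> simp [iY, cP]
    · have h3 : ¬ (2 + (σ.val + 2 * iP s') = 0) := by omega
      simp only [iY, h3, if_false, cP]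
      simp
  · have h1 : iP s - 1 = iP (s.1, (⟨s.2.val - 1, by omega⟩ : Fin r)) := by
      simp only [iP]; omega
    simp only [h, if_false, cQ, dite_false]
    rw [h1, VN_eq]

private theorem cQ_range {T r : ℕ} (s : Pos T r) (b : YY T r) :
    cQ s b = 1 ∨ cQ s b = 0 ∨ cQ s b = -1 := by
  by_cases h : s.2.val = 0
  · simp only [h, cQ, dite_true]
    rcases b with e | ⟨s', σ⟩
    · simp only [cP]; split_ifs <;> simp
    · simp [cP]
  · simp only [h, cQ, dite_false]
    rcases b with e | ⟨s', σ⟩
    · simp [cV]
    · simp only [cV]; split_ifs <;> simp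

private theorem XN_eq (j l i : Fin K) : (XN K j.val l.val i.val : ℤ) = 3 * K + XX j l i := by
  have hK : 0 < K := j.pos
  simp only [XN, XX]
  by_cases h : l = j
  · subst h
    simp
  · have h' : l.val ≠ j.val := fun hh => h (Fin.ext hh)
    simp only [h, h', if_false]
    by_cases h2 : i = l
    · subst h2
      simp only [if_true]
      omega
    · have h2' : i.val ≠ l.val := fun hh => h2 (Fin.ext hh)
      simp only [h2, h2', if_false]
      omega

private theorem XX_le (j l i : Fin K) : XX j l i ≤ 3 * K := by
  have hK : 0 < K := j.pos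
  simp only [XX]
  split_ifs <;> omega

private theorem XQ_true {T r : ℕ} (s : Pos T r) (b : YY T r) (j l i : Fin K) :
    (XQ K j.val l.val i.val (QN r (iP s) (iY b)) true : ℤ) = 3 * K - XX j l i * cQ s b := by
  have h1 := XN_eq j l i
  have h2 := XX_le j l i
  have h3 := QN_eq s b
  rcases cQ_range s b with h | h | h
  · have h4 : QN r (iP s) (iY b) = 2 := by omega
    rw [h4, h, XQ]
    simp
    omega
  · have h4 : QN r (iP s) (iY b) = 1 := by omega
    rw [h4, h, XQ]
    simp
  · have h4 : QN r (iP s) (iY b) = 0 := by omega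
    rw [h4, h, XQ]
    simp
    omega

private theorem XQ_false {T r : ℕ} (s : Pos T r) (b : YY T r) (j l i : Fin K) :
    (XQ K j.val l.val i.val (QN r (iP s) (iY b)) false : ℤ) = 3 * K + XX j l i * cQ s b := by
  have h1 := XN_eq j l i
  have h2 := XX_le j l i
  have h3 := QN_eq s b
  rcases cQ_range s b with h | h | h
  · have h4 : QN r (iP s) (iY b) = 2 := by omega
    rw [h4, h, XQ]
    simp
    omega
  · have h4 : QN r (iP s) (iY b) = 1 := by omega
    rw [h4, h, XQ]
    simp
  · have h4 : QN r (iP s) (iY b) = 0 := by omega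
    rw [h4, h, XQ]
    simp
    omega

theorem payA_eq (r : ℕ) (D : Frm K) (i : Fin K) (b : YY D.length r) (e : Fin 2) :
    payA r D i (iY b) e = AN r D i b e := by
  rcases b with g | ⟨s, σ⟩
  · have hg := g.isLt
    simp only [payA, AN, AZ, iY, cL]
    by_cases h0 : i.val = 0
    · simp only [h0, if_true]
      fin_cases g <;> fin_cases e <;> simp <;> omega
    · by_cases h1 : i.val = 1
      · simp only [h1, if_true]
        fin_cases g <;> fin_cases e <;> simp
      · simp [h0, h1]
  · have h := σ.isLt
    have h1 : (2 + (σ.val + 2 * iP s) - 2) / 2 = iP s := by omega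
    have h2 : (2 + (σ.val + 2 * iP s) - 2) % 2 = σ.val := by omega
    have h3 : ¬ (2 + (σ.val + 2 * iP s) < 2) := by omega
    have h4 : ¬ (2 + (σ.val + 2 * iP s) = 1) := by omega
    have h5 : ¬ (2 + (σ.val + 2 * iP s) = 0) := by omega
    simp only [payA, AN, AZ, iY, h1, h2, h3, h4, h5, if_false, false_and, iP_mod, coefN_eq]
    by_cases h0 : i.val = 0
    · simp [h0]
    · by_cases hi : i.val = 1
      · simp only [hi, if_true, reduceCtorEq, false_and, if_false]
        by_cases he : e = 0
        · subst he
          simp only [cL]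
          by_cases hp : s.2.val + 1 = r
          · simp only [hp, if_true]
            by_cases hσ : σ = 0
            · subst hσ
              simp
              omega
            · have : σ.val ≠ 0 := fun h => hσ (Fin.ext h)
              simp [hσ, this]
              omega
          · simp [hp]
        · have : e.val ≠ 0 := fun h => he (Fin.ext h)
          simp [he, this]
      · simp [h0, hi]

theorem payB_eq (j : Fin K) (r : ℕ) (D : Frm K) (i : Fin K) (b : YY D.length r) (c : CC K D.length r) :
    payB j r D i (iY b) (iC c) = BN j r D c i b := by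
  have hK : 0 < K := j.pos
  rcases c with k | ⟨s, ρ⟩
  · have hk := k.isLt
    simp only [payB, BN, BZ, iC, hk, if_true]
    by_cases h : i = k
    · subst h
      simp only [if_true]
      omega
    · have h' : i.val ≠ k.val := fun hh => h (Fin.ext hh)
      simp only [h, h', if_false]
      omega
  · have hρ := ρ.isLt
    have h1 : (K + (ρ.val + 4 * iP s) - K) / 4 = iP s := by omega
    have h2 : (K + (ρ.val + 4 * iP s) - K) % 4 = ρ.val := by omega
    have h3 : ¬ (K + (ρ.val + 4 * iP s) < K) := by omega
    simp only [payB, BN, BZ, iC, h1, h2, h3, if_false, lettN_eq]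
    have hV := VN_eq s b
    have hS := SN_eq s b
    have hT := XQ_true s b j (lett j r D s) i
    have hF := XQ_false s b j (lett j r D s) i
    fin_cases ρ
    · simp
      omega
    · simp
      omega
    · simp
      omega
    · simp
      omega

theorem pay_eq0 (j : Fin K) (r : ℕ) (D : Frm K) (i : Fin K) (b : Fin 2 ⊕ YY D.length r)
    (c : Fin 2 ⊕ (Fin 2 ⊕ CC K D.length r)) :
    payN j r D 0 i (i2 b) (i3 c) = u1 (AN r D) i b c := by
  rcases b with g | b
  · have hg := g.isLt
    rcases c with h | e | c
    · have hh := h.isLt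
      simp [payN, i2, i3, u1, hg, hh]
    · have he := e.isLt
      have h1 : ¬ (2 + e.val < 2) := by omega
      simp only [payN, i2, i3, u1, hg, h1, if_true, if_false]
    · have h1 : ¬ (2 + (2 + iC c) < 2) := by omega
      simp only [payN, i2, i3, u1, hg, h1, if_true, if_false]
  · have h0 : ¬ (2 + iY b < 2) := by omega
    rcases c with h | e | c
    · have hh := h.isLt
      have h1 : ¬ (2 ≤ h.val) := by omega
      simp only [payN, i2, i3, u1, h0, h1, if_true, if_false, false_and]
    · have he := e.isLt
      have h1 : 2 ≤ 2 + e.val ∧ 2 + e.val < 4 := by omega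
      have h2 : 2 + iY b - 2 = iY b := by omega
      have h3 : 2 + e.val - 2 = e.val := by omega
      simp only [payN, i2, i3, u1, h0, h1, h2, h3, if_true, if_false, and_self]
      exact payA_eq r D i b e
    · have h1 : ¬ (2 + (2 + iC c) < 4) := by omega
      simp only [payN, i2, i3, u1, h0, h1, if_true, if_false, and_false]

theorem pay_eq1 (j : Fin K) (r : ℕ) (D : Frm K) (i : Fin K) (b : Fin 2 ⊕ YY D.length r)
    (c : Fin 2 ⊕ (Fin 2 ⊕ CC K D.length r)) :
    payN j r D 1 i (i2 b) (i3 c) = u2 i b c := by
  rcases b with g | b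
  · have hg := g.isLt
    rcases c with h | e | c
    · have hh := h.isLt
      simp [payN, i2, i3, u2, hg, hh]
    · have he := e.isLt
      have h1 : ¬ (2 + e.val < 2) := by omega
      have h2 : 2 + e.val < 4 := by omega
      simp only [payN, i2, i3, u2, hg, h1, h2, if_true, if_false, one_ne_zero]
    · have h1 : ¬ (2 + (2 + iC c) < 2) := by omega
      have h2 : ¬ (2 + (2 + iC c) < 4) := by omega
      simp only [payN, i2, i3, u2, hg, h1, h2, if_true, if_false, one_ne_zero]
  · have h0 : ¬ (2 + iY b < 2) := by omega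
    rcases c with h | e | c
    · have hh := h.isLt
      have h1 : ¬ (2 ≤ h.val) := by omega
      simp only [payN, i2, i3, u2, h0, h1, if_true, if_false, one_ne_zero, false_and]
    · have he := e.isLt
      have h1 : 2 ≤ 2 + e.val ∧ 2 + e.val < 4 := by omega
      simp only [payN, i2, i3, u2, h0, h1, if_true, if_false, one_ne_zero, and_self]
    · have h1 : ¬ (2 + (2 + iC c) < 4) := by omega
      simp only [payN, i2, i3, u2, h0, h1, if_true, if_false, one_ne_zero, and_false]

theorem pay_eq2 (j : Fin K) (r : ℕ) (D : Frm K) (i : Fin K) (b : Fin 2 ⊕ YY D.length r)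
    (c : Fin 2 ⊕ (Fin 2 ⊕ CC K D.length r)) :
    payN j r D 2 i (i2 b) (i3 c) = u3 (3 * K + 1) (BN j r D) i b c := by
  have t1 : ¬ ((2 : ℕ) = 0) := by omega
  have t2 : ¬ ((2 : ℕ) = 1) := by omega
  rcases b with g | b
  · have hg := g.isLt
    rcases c with h | e | c
    · have hh := h.isLt
      simp only [payN, i2, i3, u3, hg, hh, t1, t2, if_true, if_false]
    · have he := e.isLt
      have h1 : ¬ (2 + e.val < 2) := by omega
      simp only [payN, i2, i3, u3, hg, h1, t1, t2, if_true, if_false]
    · have h1 : ¬ (2 + (2 + iC c) < 2) := by omega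
      simp only [payN, i2, i3, u3, hg, h1, t1, t2, if_true, if_false]
  · have h0 : ¬ (2 + iY b < 2) := by omega
    rcases c with h | e | c
    · have hh := h.isLt
      have h1 : h.val < 4 := by omega
      simp only [payN, i2, i3, u3, h0, h1, t1, t2, if_true, if_false]
    · have he := e.isLt
      have h1 : 2 + e.val < 4 := by omega
      simp only [payN, i2, i3, u3, h0, h1, t1, t2, if_true, if_false]
    · have h1 : ¬ (2 + (2 + iC c) < 4) := by omega
      have h2 : 2 + iY b - 2 = iY b := by omega
      have h3 : 2 + (2 + iC c) - 4 = iC c := by omega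
      simp only [payN, i2, i3, u3, h0, h1, h2, h3, t1, t2, if_true, if_false]
      exact payB_eq j r D i b c

end

end Pool.Agent.Work.MP_9d4f6b_lc.H
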