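import Pool.Agent.Work.MP_9d4f6b_lc.H.Index
import Pool.Agent.Work.MP_9d4f6b_lc.H.PayEq

/-!
MODULE CODE (M). The coded game has a rational equilibrium iff the gadget game has one.
PROOF. entry: for p < 3, a < K, b < m, c < n the number s = ((p K + a) m + b) n + c is < 3 K m n,
s % n = c, s / n % m = b, s / (m n) % K = a, s / (K m n) = p, so the list entry is payN p a b c
(List.getD_map / getElem_map, getElem_range). Then transport the equilibrium along E2, E3
(Equiv.sum_comp) with pay_eq0, pay_eq1, pay_eq2.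
-/

set_option linter.unusedVariables false
set_option linter.style.longLine false

namespace Pool.Agent.Work.MP_9d4f6b_lc.H

section

variable {K : ℕ}

private theorem dm {n k : ℕ} (x : ℕ) (hk : k < n) : (x * n + k) / n = x ∧ (x * n + k) % n = k := by
  have hn : 0 < n := by omega
  constructor
  · rw [mul_comm, Nat.mul_add_div hn, Nat.div_eq_of_lt hk, add_zero]
  · rw [mul_comm, Nat.mul_add_mod, Nat.mod_eq_of_lt hk]

private theorem lt_step {x N n k : ℕ} (hx : x < N) (hk : k < n) : x * n + k < N * n := by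
  calc x * n + k < x * n + n := by omega
    _ = (x + 1) * n := by ring
    _ ≤ N * n := Nat.mul_le_mul_right n hx

theorem entry (j : Fin K) (r : ℕ) (D : Frm K) (p a b c : ℕ) (hp : p < 3) (ha : a < K)
    (hb : b < mN r D) (hc : c < nN r D) :
    (gameN j r D).2.2.2.getD (((p * K + a) * mN r D + b) * nN r D + c) 0 = payN j r D p a b c := by
  have h1 := dm ((p * K + a) * mN r D + b) hc
  have h2 := dm (p * K + a) hb
  have h3 := dm p ha
  have hs : ((p * K + a) * mN r D + b) * nN r D + c < 3 * K * mN r D * nN r D :=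
    lt_step (lt_step (lt_step hp ha) hb) hc
  have e1 : (((p * K + a) * mN r D + b) * nN r D + c) / (mN r D * nN r D) = p * K + a := by
    rw [mul_comm (mN r D) (nN r D), ← Nat.div_div_eq_div_mul, h1.1, h2.1]
  have e2 : (((p * K + a) * mN r D + b) * nN r D + c) / (K * mN r D * nN r D) = p := by
    rw [show K * mN r D * nN r D = (mN r D * nN r D) * K by ring, ← Nat.div_div_eq_div_mul, e1, h3.1]
  change (((List.range (3 * K * mN r D * nN r D)).map fun s =>
    payN j r D (s / (K * mN r D * nN r D)) (s / (mN r D * nN r D) % K) (s / nN r D % mN r D)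
      (s % nN r D)).getD (((p * K + a) * mN r D + b) * nN r D + c) 0) = _
  rw [List.getD_eq_getElem?_getD, List.getElem?_map, List.getElem?_range hs, Option.map_some,
    Option.getD_some, e1, e2, h3.2, h1.1, h2.2, h1.2]

private theorem isNE_equiv {A B C B' C' : Type} [Fintype A] [Fintype B] [Fintype C] [Fintype B']
    [Fintype C'] (e : B' ≃ B) (f : C' ≃ C) (u1 u2 u3 : A → B → C → ℕ) (x : A → ℚ) (y : B → ℚ)
    (z : C → ℚ) : IsNE u1 u2 u3 x y z ↔ IsNE (fun a b c => u1 a (e b) (f c))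
      (fun a b c => u2 a (e b) (f c)) (fun a b c => u3 a (e b) (f c)) x (fun b => y (e b))
      (fun c => z (f c)) := by
  have hB : ∀ g : B → ℚ, ∑ b', g (e b') = ∑ b, g b := fun g => Equiv.sum_comp e g
  have hC : ∀ g : C → ℚ, ∑ c', g (f c') = ∑ c, g c := fun g => Equiv.sum_comp f g
  have hBC : ∀ (g : B → C → ℚ), ∑ b', ∑ c', g (e b') (f c') = ∑ b, ∑ c, g b c := by
    intro g
    rw [← hB]
    exact Finset.sum_congr rfl fun b' _ => hC _
  constructor
  · intro h
    refine ⟨h.x0, h.x1, fun b => h.y0 _, ?_, fun c => h.z0 _, ?_, ?_, ?_, ?_⟩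
    · rw [hB y]; exact h.y1
    · rw [hC z]; exact h.z1
    · intro a₀
      rw [hBC (fun b c => y b * z c * (u1 a₀ b c : ℚ))]
      refine (h.n1 a₀).trans (le_of_eq ?_)
      refine Finset.sum_congr rfl fun a _ => ?_
      exact (hBC (fun b c => x a * y b * z c * (u1 a b c : ℚ))).symm
    · intro b₀
      have h1 : ∀ a, ∑ c', x a * z (f c') * (u2 a (e b₀) (f c') : ℚ) =
          ∑ c, x a * z c * (u2 a (e b₀) c : ℚ) := fun a =>
        hC (fun c => x a * z c * (u2 a (e b₀) c : ℚ))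
      simp only [h1]
      refine (h.n2 (e b₀)).trans (le_of_eq ?_)
      refine Finset.sum_congr rfl fun a _ => ?_
      exact (hBC (fun b c => x a * y b * z c * (u2 a b c : ℚ))).symm
    · intro c₀
      have h1 : ∀ a, ∑ b', x a * y (e b') * (u3 a (e b') (f c₀) : ℚ) =
          ∑ b, x a * y b * (u3 a b (f c₀) : ℚ) := fun a =>
        hB (fun b => x a * y b * (u3 a b (f c₀) : ℚ))
      simp only [h1]
      refine (h.n3 (f c₀)).trans (le_of_eq ?_)
      refine Finset.sum_congr rfl fun a _ => ?_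
      exact (hBC (fun b c => x a * y b * z c * (u3 a b c : ℚ))).symm
  · intro h
    have hy1 := h.y1
    rw [hB y] at hy1
    have hz1 := h.z1
    rw [hC z] at hz1
    refine ⟨h.x0, h.x1, fun b => ?_, hy1, fun c => ?_, hz1, ?_, ?_, ?_⟩
    · have := h.y0 (e.symm b); simpa using this
    · have := h.z0 (f.symm c); simpa using this
    · intro a₀
      have h2 := h.n1 a₀
      rw [hBC (fun b c => y b * z c * (u1 a₀ b c : ℚ))] at h2
      refine h2.trans (le_of_eq ?_)
      refine Finset.sum_congr rfl fun a _ => ?_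
      exact hBC (fun b c => x a * y b * z c * (u1 a b c : ℚ))
    · intro b₀
      have h2 := h.n2 (e.symm b₀)
      have h1 : ∀ a, ∑ c', x a * z (f c') * (u2 a (e (e.symm b₀)) (f c') : ℚ) =
          ∑ c, x a * z c * (u2 a b₀ c : ℚ) := fun a => by
        rw [Equiv.apply_symm_apply]
        exact hC (fun c => x a * z c * (u2 a b₀ c : ℚ))
      simp only [h1] at h2
      refine h2.trans (le_of_eq ?_)
      refine Finset.sum_congr rfl fun a _ => ?_
      exact hBC (fun b c => x a * y b * z c * (u2 a b c : ℚ))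
    · intro c₀
      have h2 := h.n3 (f.symm c₀)
      have h1 : ∀ a, ∑ b', x a * y (e b') * (u3 a (e b') (f (f.symm c₀)) : ℚ) =
          ∑ b, x a * y b * (u3 a b c₀ : ℚ) := fun a => by
        rw [Equiv.apply_symm_apply]
        exact hB (fun b => x a * y b * (u3 a b c₀ : ℚ))
      simp only [h1] at h2
      refine h2.trans (le_of_eq ?_)
      refine Finset.sum_congr rfl fun a _ => ?_
      exact hBC (fun b c => x a * y b * z c * (u3 a b c : ℚ))

theorem code_iff (j : Fin K) (r : ℕ) (D : Frm K) :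
    HasNE (gameN j r D) ↔ ∃ (t : Fin K → ℚ) (y : Fin 2 ⊕ YY D.length r → ℚ)
      (z : Fin 2 ⊕ (Fin 2 ⊕ CC K D.length r) → ℚ),
      IsNE (u1 (AN r D)) u2 (u3 (3 * K + 1) (BN j r D)) t y z := by
  have e0 : ∀ (a : Fin K) (b : Fin (mN r D)) (c : Fin (nN r D)),
      (gameN j r D).2.2.2.getD (((0 * K + a.val) * mN r D + b.val) * nN r D + c.val) 0 =
        payN j r D 0 a b c := fun a b c => entry j r D 0 a b c (by norm_num) a.2 b.2 c.2
  have e1 : ∀ (a : Fin K) (b : Fin (mN r D)) (c : Fin (nN r D)),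
      (gameN j r D).2.2.2.getD (((1 * K + a.val) * mN r D + b.val) * nN r D + c.val) 0 =
        payN j r D 1 a b c := fun a b c => entry j r D 1 a b c (by norm_num) a.2 b.2 c.2
  have e2 : ∀ (a : Fin K) (b : Fin (mN r D)) (c : Fin (nN r D)),
      (gameN j r D).2.2.2.getD (((2 * K + a.val) * mN r D + b.val) * nN r D + c.val) 0 =
        payN j r D 2 a b c := fun a b c => entry j r D 2 a b c (by norm_num) a.2 b.2 c.2
  have e0' : ∀ (a : Fin (gameN j r D).1) (b : Fin (gameN j r D).2.1) (c : Fin (gameN j r D).2.2.1),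
      (gameN j r D).2.2.2.getD (((0 * (gameN j r D).1 + a.val) * (gameN j r D).2.1 + b.val) *
        (gameN j r D).2.2.1 + c.val) 0 = payN j r D 0 a b c := e0
  have e1' : ∀ (a : Fin (gameN j r D).1) (b : Fin (gameN j r D).2.1) (c : Fin (gameN j r D).2.2.1),
      (gameN j r D).2.2.2.getD (((1 * (gameN j r D).1 + a.val) * (gameN j r D).2.1 + b.val) *
        (gameN j r D).2.2.1 + c.val) 0 = payN j r D 1 a b c := e1
  have e2' : ∀ (a : Fin (gameN j r D).1) (b : Fin (gameN j r D).2.1) (c : Fin (gameN j r D).2.2.1),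
      (gameN j r D).2.2.2.getD (((2 * (gameN j r D).1 + a.val) * (gameN j r D).2.1 + b.val) *
        (gameN j r D).2.2.1 + c.val) 0 = payN j r D 2 a b c := e2
  have step : HasNE (gameN j r D) ↔ ∃ (X : Fin K → ℚ) (Y : Fin (mN r D) → ℚ) (Z : Fin (nN r D) → ℚ),
      IsNE (fun (a : Fin K) (b : Fin (mN r D)) (c : Fin (nN r D)) => payN j r D 0 a b c)
        (fun a b c => payN j r D 1 a b c) (fun a b c => payN j r D 2 a b c) X Y Z := by
    unfold HasNE
    simp only [e0', e1', e2']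
    constructor
    · rintro ⟨X, Y, Z, h1, h2, h3, h4, h5, h6, h7, h8, h9⟩
      exact ⟨X, Y, Z, ⟨h1, h2, h3, h4, h5, h6, h7, h8, h9⟩⟩
    · rintro ⟨X, Y, Z, h⟩
      exact ⟨X, Y, Z, h.x0, h.x1, h.y0, h.y1, h.z0, h.z1, h.n1, h.n2, h.n3⟩
  have ex2 : ∃ E : (Fin 2 ⊕ YY D.length r) ≃ Fin (mN r D), ∀ s, (E s).val = i2 s :=
    exE2 (T := D.length) (r := r)
  have ex3 : ∃ E : (Fin 2 ⊕ (Fin 2 ⊕ CC K D.length r)) ≃ Fin (nN r D), ∀ s, (E s).val = i3 s :=
    exE3 (K := K) (T := D.length) (r := r)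
  obtain ⟨E2, hE2⟩ := ex2
  obtain ⟨E3, hE3⟩ := ex3
  have p0 : ∀ (a : Fin K) (b : Fin 2 ⊕ YY D.length r) (c : Fin 2 ⊕ (Fin 2 ⊕ CC K D.length r)),
      payN j r D 0 a (E2 b) (E3 c) = u1 (AN r D) a b c := fun a b c => by
    rw [hE2, hE3]; exact pay_eq0 j r D a b c
  have p1 : ∀ (a : Fin K) (b : Fin 2 ⊕ YY D.length r) (c : Fin 2 ⊕ (Fin 2 ⊕ CC K D.length r)),
      payN j r D 1 a (E2 b) (E3 c) = u2 a b c := fun a b c => by
    rw [hE2, hE3]; exact pay_eq1 j r D a b c
  have p2 : ∀ (a : Fin K) (b : Fin 2 ⊕ YY D.length r) (c : Fin 2 ⊕ (Fin 2 ⊕ CC K D.length r)),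
      payN j r D 2 a (E2 b) (E3 c) = u3 (3 * K + 1) (BN j r D) a b c := fun a b c => by
    rw [hE2, hE3]; exact pay_eq2 j r D a b c
  have key : ∀ (X : Fin K → ℚ) (Y : Fin (mN r D) → ℚ) (Z : Fin (nN r D) → ℚ),
      IsNE (fun (a : Fin K) (b : Fin (mN r D)) (c : Fin (nN r D)) => payN j r D 0 a b c)
        (fun a b c => payN j r D 1 a b c) (fun a b c => payN j r D 2 a b c) X Y Z ↔
      IsNE (u1 (AN r D)) u2 (u3 (3 * K + 1) (BN j r D)) X (fun b => Y (E2 b)) (fun c => Z (E3 c)) := by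
    intro X Y Z
    refine (isNE_equiv E2 E3 _ _ _ X Y Z).trans ?_
    simp only [p0, p1, p2]
  rw [step]
  constructor
  · rintro ⟨X, Y, Z, h⟩
    exact ⟨X, _, _, (key X Y Z).1 h⟩
  · rintro ⟨X, Y, Z, h⟩
    refine ⟨X, fun b => Y (E2.symm b), fun c => Z (E3.symm c), (key X _ _).2 ?_⟩
    simpa using h

end

end Pool.Agent.Work.MP_9d4f6b_lc.H
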