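import Pool.Agent.Work.MP_9d4f6b_lc.H.Eqs

/-!
MODULE CHAIN (M). PROOF. chain: induction on p: V (τ, p) = P0 * ∏ of x over the first p + 1 letters of the
word of the term τ (Qv is P0 for p = 0, V (τ, p-1) else; List.take_succ, List.prod_append or
List.prod_range_succ; the letter at p is (D.get τ).2.getD p j, and p < r = length of the word).
chainL: Lv = ∑ τ coef τ * V (τ, r - 1) (r > 0; the inner sum has the only term p = r - 1)
= P0 * ∑ τ coef τ * ∏ (word τ).map x = P0 * evalF D x (List.sum_map over D.get, e.g. List.sum_ofFn /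
Fin.sum_univ_def / List.map_get).
-/

set_option linter.unusedVariables false
set_option linter.style.longLine false

namespace Pool.Agent.Work.MP_9d4f6b_lc.H

section

variable {K : ℕ}

theorem chain (j : Fin K) (r : ℕ) (D : Frm K) (hD : Hom r D) (x : Fin K → ℚ) (y : YY D.length r → ℚ)
    (hV : ∀ s, Vv y s = x (lett j r D s) * Qv y s) (τ : Fin D.length) (p : ℕ) (hp : p < r) :
    Vv y (τ, ⟨p, hp⟩) = y (Sum.inl 0) * (((D.get τ).2.take (p + 1)).map x).prod := by
  have hlen : (D.get τ).2.length = r := hD _ (List.get_mem D τ)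
  have hlet : ∀ (q : ℕ) (hq : q < r), lett j r D (τ, ⟨q, hq⟩) = (D.get τ).2[q]'(by omega) := by
    intro q hq
    show (D.get τ).2.getD q j = _
    exact List.getD_eq_getElem _ _ (by omega)
  have htake : ∀ (q : ℕ) (hq : q < r), (((D.get τ).2.take (q + 1)).map x).prod =
      (((D.get τ).2.take q).map x).prod * x ((D.get τ).2[q]'(by omega)) := by
    intro q hq
    rw [List.take_succ_eq_append_getElem (by omega), List.map_append, List.prod_append]
    simp
  induction p with
  | zero =>
    rw [hV, hlet 0 hp, htake 0 hp]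
    have : Qv y (τ, ⟨0, hp⟩) = y (Sum.inl 0) := by
      unfold Qv
      simp
    rw [this]
    simp
    ring
  | succ q ih =>
    rw [hV, hlet (q + 1) hp, htake (q + 1) hp]
    have : Qv y (τ, ⟨q + 1, hp⟩) = Vv y (τ, ⟨q, by omega⟩) := by
      unfold Qv
      simp
    rw [this, ih (by omega) hlet htake]
    ring

theorem chainL (j : Fin K) (r : ℕ) (hr : 0 < r) (D : Frm K) (hD : Hom r D) (x : Fin K → ℚ)
    (y : YY D.length r → ℚ) (hV : ∀ s, Vv y s = x (lett j r D s) * Qv y s) :
    Lv (coef D) y = y (Sum.inl 0) * evalF D x := by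
  unfold Lv evalF
  have h1 : ∀ τ : Fin D.length, (∑ p : Fin r, if p.val + 1 = r then (coef D τ : ℚ) * Vv y (τ, p) else 0) =
      y (Sum.inl 0) * ((fun m : ℤ × List (Fin K) => (m.1 : ℚ) * (m.2.map x).prod) (D.get τ)) := by
    intro τ
    rw [Finset.sum_eq_single (⟨r - 1, by omega⟩ : Fin r)]
    · rw [if_pos (by simp; omega), chain j r D hD x y hV τ (r - 1) (by omega)]
      have hlen : (D.get τ).2.length = r := hD _ (List.get_mem D τ)
      rw [List.take_of_length_le (by omega)]
      unfold coef
      ring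
    · intro p _ hne
      rw [if_neg]
      intro h
      apply hne
      ext
      simp
      omega
    · intro h
      exact absurd (Finset.mem_univ _) h
  rw [Finset.sum_congr rfl (fun τ _ => h1 τ), ← Finset.mul_sum]
  congr 1
  exact Fin.sum_univ_fun_getElem D (fun m : ℤ × List (Fin K) => (m.1 : ℚ) * (m.2.map x).prod)

end

end Pool.Agent.Work.MP_9d4f6b_lc.H
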