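import Pool.Agent.Work.MP_9d4f6b_lc.H.Eqs
import Pool.Agent.Work.MP_9d4f6b_lc.H.Chain

/-!
MODULE DOWN (M-L). A rational point with x_j = 1, |x_i| ≤ 1 gives a solution of ZSys. PROOF. w := |w|.
t i = (x i + 2) / (3 K) for i ≠ j, t j = 1 - ∑ of the others; t i ≥ 1/(3K) for i ≠ j, and
t j ≥ 1 - (K - 1) * 3 / (3 K) = 1 / K ≥ 1 / (3 K). So IsPr t, and xx j t = x: for l = j it is ∑ t = 1, for
l ≠ j it is 3 K t l - 2 ∑ t = x l. Let m (τ, p) = ∏ of x over the first p + 1 letters of the word τ,
|m| ≤ 1 (product of numbers of absolute value ≤ 1). Z = 1 + w + (number of positions) > 0,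
y (inl 0) = 1 / Z, y (inl 1) = w / Z, y (inr (s,0)) = (1 + m s) / (2 Z), y (inr (s,1)) = (1 - m s) / (2 Z):
probability vector. z 0 = 1/(1+w), z 1 = w/(1+w). Then con_iff: sum = P0, V s = m s / Z, Q s = m (previous) / Z
or 1 / Z, m s = x (letter) * m (previous). chainL (with this y): L = P0 D(x) = D(x) / Z. The payoffs of
player 1 (pay0, pay1, pay2): E1 = (w/Z)(1/(1+w)) - (1/Z)(w/(1+w)) = 0, E2 = (w/Z)(w/(1+w)) - (D(x)/Z)(1/(1+w)) = 0,
others 0; so both sides of the last condition are 0.
-/

set_option linter.unusedVariables false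
set_option linter.style.longLine false

namespace Pool.Agent.Work.MP_9d4f6b_lc.H

section

variable {K : ℕ}

/-- product of the values over the first letters -/
def mD (x : Fin K → ℚ) (D : Frm K) {r : ℕ} (s : Pos D.length r) : ℚ :=
  (((D.get s.1).2.take (s.2.val + 1)).map x).prod

theorem abs_prod_le {l : List ℚ} (h : ∀ a ∈ l, |a| ≤ 1) : |l.prod| ≤ 1 := by
  induction l with
  | nil => simp
  | cons a l ih =>
    rw [List.prod_cons, abs_mul]
    have h1 : |a| ≤ 1 := h a (by simp)
    have h2 : |l.prod| ≤ 1 := ih (fun b hb => h b (by simp [hb]))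
    calc |a| * |l.prod| ≤ 1 * 1 := mul_le_mul h1 h2 (abs_nonneg _) (by norm_num)
      _ = 1 := by norm_num

theorem abs_mD {x : Fin K → ℚ} (hx : ∀ i, |x i| ≤ 1) (D : Frm K) {r : ℕ} (s : Pos D.length r) :
    |mD x D s| ≤ 1 := by
  apply abs_prod_le
  intro a ha
  obtain ⟨i, _, rfl⟩ := List.mem_map.1 ha
  exact hx i

theorem mD_zero (j : Fin K) (x : Fin K → ℚ) (r : ℕ) (D : Frm K) (hD : Hom r D) (τ : Fin D.length) (p : ℕ)
    (hp : p < r) : mD x D (r := r) (τ, ⟨p, hp⟩) =
      x (lett j r D (τ, ⟨p, hp⟩)) * (((D.get τ).2.take p).map x).prod := by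
  have hl : (D.get τ).2.length = r := hD _ (List.get_mem D τ)
  have hp' : p < (D.get τ).2.length := by omega
  have e : (D.get τ).2.take (p + 1) = (D.get τ).2.take p ++ [(D.get τ).2.getD p j] := by
    rw [List.take_add_one, List.getElem?_eq_getElem hp', List.getD_eq_getElem _ _ hp']
    rfl
  unfold mD
  show (((D.get τ).2.take (p + 1)).map x).prod = _
  rw [e, List.map_append, List.prod_append]
  simp only [List.map_cons, List.map_nil, List.prod_cons, List.prod_nil, mul_one]
  rw [mul_comm]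
  rfl

/-- the strategy of player 1 -/
def tD (j : Fin K) (x : Fin K → ℚ) (i : Fin K) : ℚ :=
  if i = j then 1 - ∑ l ∈ Finset.univ.erase j, (x l + 2) / (3 * K) else (x i + 2) / (3 * K)

theorem tD_sum (j : Fin K) (x : Fin K → ℚ) : ∑ i, tD j x i = 1 := by
  rw [← Finset.add_sum_erase _ _ (Finset.mem_univ j)]
  have h1 : tD j x j = 1 - ∑ l ∈ Finset.univ.erase j, (x l + 2) / (3 * K) := by simp [tD]
  have h2 : ∑ i ∈ Finset.univ.erase j, tD j x i = ∑ l ∈ Finset.univ.erase j, (x l + 2) / (3 * K) := by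
    apply Finset.sum_congr rfl
    intro i hi
    simp [tD, Finset.ne_of_mem_erase hi]
  rw [h1, h2]
  ring

theorem tD_ge (j : Fin K) (x : Fin K → ℚ) (hx : ∀ i, |x i| ≤ 1) (i : Fin K) : 1 ≤ 3 * K * tD j x i := by
  have hK0 : 0 < K := j.pos
  have hK : (0 : ℚ) < K := by exact_mod_cast hK0
  unfold tD
  split_ifs with h
  · have h1 : ∑ l ∈ Finset.univ.erase j, (x l + 2) / (3 * (K : ℚ)) ≤
        ∑ l ∈ Finset.univ.erase j, 1 / (K : ℚ) := by
      apply Finset.sum_le_sum
      intro l _
      have := (abs_le.1 (hx l)).2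
      rw [div_le_div_iff₀ (by positivity) hK]
      nlinarith
    rw [Finset.sum_const, Finset.card_erase_of_mem (Finset.mem_univ j), Finset.card_univ, Fintype.card_fin,
      nsmul_eq_mul, Nat.cast_sub (by omega)] at h1
    have h2 : 3 * (K : ℚ) * (1 - (((K : ℚ) - ((1 : ℕ) : ℚ)) * (1 / (K : ℚ)))) = 3 := by
      push_cast
      field_simp
      ring
    have h3 : 3 * (K : ℚ) * (1 - (((K : ℚ) - ((1 : ℕ) : ℚ)) * (1 / (K : ℚ)))) ≤
        3 * (K : ℚ) * (1 - ∑ l ∈ Finset.univ.erase j, (x l + 2) / (3 * (K : ℚ))) := by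
      apply mul_le_mul_of_nonneg_left _ (by positivity)
      linarith
    linarith
  · have := (abs_le.1 (hx i)).1
    have e : 3 * (K : ℚ) * ((x i + 2) / (3 * K)) = x i + 2 := by field_simp
    rw [e]
    linarith

theorem tD_pr (j : Fin K) (x : Fin K → ℚ) (hx : ∀ i, |x i| ≤ 1) : IsPr (tD j x) := by
  refine ⟨fun i => ?_, tD_sum j x⟩
  have h1 := tD_ge j x hx i
  have hK0 : 0 < K := j.pos
  have hK : (0 : ℚ) < K := by exact_mod_cast hK0
  by_contra h
  push Not at h
  have : 3 * (K : ℚ) * tD j x i < 0 := mul_neg_of_pos_of_neg (by positivity) h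
  linarith

theorem xx_tD (j : Fin K) (x : Fin K → ℚ) (hj : x j = 1) (l : Fin K) : xx j (tD j x) l = x l := by
  have hK0 : 0 < K := j.pos
  have hK : (0 : ℚ) < K := by exact_mod_cast hK0
  unfold xx XX
  by_cases h : l = j
  · subst h
    simp [tD_sum, hj]
  · simp only [h, if_false]
    have e : ∀ i, (((if i = l then (3 * (K : ℤ) - 2) else -2 : ℤ) : ℤ) : ℚ) * tD j x i =
        (if i = l then 3 * (K : ℚ) * tD j x i else 0) + (-2) * tD j x i := by
      intro i
      split_ifs
      · push_cast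
        ring
      · push_cast
        ring
    rw [Finset.sum_congr rfl (fun i _ => e i), Finset.sum_add_distrib, ← Finset.mul_sum, tD_sum,
      Finset.sum_ite_eq' Finset.univ l]
    simp only [Finset.mem_univ, if_true, tD, h, if_false]
    field_simp
    ring

theorem sys_of_chart (j : Fin K) (r : ℕ) (hr : 0 < r) (D : Frm K) (hD : Hom r D)
    (h : Chart j D) : ZSys j (lett j r D) (coef D) := by
  obtain ⟨x, w0, hj, hx, hw0⟩ := h
  obtain ⟨w, hw, hw2⟩ : ∃ w : ℚ, 0 ≤ w ∧ w ^ 2 = evalF D x := ⟨|w0|, abs_nonneg _, by rw [sq_abs, hw0]⟩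
  set Z : ℚ := 1 + w + (Fintype.card (Pos D.length r) : ℚ) with hZ
  have hZ0 : 0 < Z := by
    have : (0 : ℚ) ≤ (Fintype.card (Pos D.length r) : ℚ) := by positivity
    linarith
  have hw1 : 0 < 1 + w := by linarith
  let y : YY D.length r → ℚ := fun b => match b with
    | Sum.inl e => if e = 0 then 1 / Z else w / Z
    | Sum.inr (s, σ) => if σ = 0 then (1 + mD x D s) / (2 * Z) else (1 - mD x D s) / (2 * Z)
  let z : Fin 2 → ℚ := fun e => if e = 0 then 1 / (1 + w) else w / (1 + w)
  have y0 : y (Sum.inl 0) = 1 / Z := rfl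
  have y1 : y (Sum.inl 1) = w / Z := rfl
  have ys0 : ∀ s, y (Sum.inr (s, 0)) = (1 + mD x D s) / (2 * Z) := fun s => rfl
  have ys1 : ∀ s, y (Sum.inr (s, 1)) = (1 - mD x D s) / (2 * Z) := fun s => rfl
  have z0 : z 0 = 1 / (1 + w) := rfl
  have z1 : z 1 = w / (1 + w) := rfl
  have hy : IsPr y := by
    constructor
    · intro b
      rcases b with e | ⟨s, σ⟩
      · fin_cases e
        · show 0 ≤ y (Sum.inl 0)
          rw [y0]; positivity
        · show 0 ≤ y (Sum.inl 1)
          rw [y1]; positivity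
      · have := abs_le.1 (abs_mD hx D s)
        fin_cases σ
        · show 0 ≤ y (Sum.inr (s, 0))
          rw [ys0]
          apply div_nonneg _ (by positivity)
          linarith [this.1]
        · show 0 ≤ y (Sum.inr (s, 1))
          rw [ys1]
          apply div_nonneg _ (by positivity)
          linarith [this.2]
    · rw [Fintype.sum_sum_type, Fin.sum_univ_two, Fintype.sum_prod_type]
      have e : ∀ s : Pos D.length r, ∑ σ : Fin 2, y (Sum.inr (s, σ)) = 1 / Z := by
        intro s
        rw [Fin.sum_univ_two, ys0, ys1]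
        field_simp
        ring
      rw [Finset.sum_congr rfl (fun s _ => e s), Finset.sum_const, y0, y1, Finset.card_univ, nsmul_eq_mul]
      rw [← mul_div_assoc, ← add_div, ← add_div, mul_one, ← hZ, div_self hZ0.ne']
  have hz : IsPr z := by
    constructor
    · intro e
      fin_cases e
      · show 0 ≤ z 0
        rw [z0]; positivity
      · show 0 ≤ z 1
        rw [z1]; positivity
    · rw [Fin.sum_univ_two, z0, z1, ← add_div, div_self hw1.ne']
  have hVv : ∀ s, Vv y s = mD x D s / Z := by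
    intro s
    unfold Vv
    rw [ys0, ys1]
    field_simp
    ring
  have hV : ∀ s, Vv y s = x (lett j r D s) * Qv y s := by
    rintro ⟨τ, ⟨p, hp⟩⟩
    rw [hVv, mD_zero j x r D hD τ p hp]
    unfold Qv
    by_cases h0 : p = 0
    · subst h0
      simp only [List.take_zero, List.map_nil, List.prod_nil, mul_one, dite_true, y0]
      ring
    · simp only [h0, dite_false]
      rw [hVv]
      have e : mD x D (r := r) (τ, ⟨p - 1, by omega⟩) = (((D.get τ).2.take p).map x).prod := by
        unfold mD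
        show (((D.get τ).2.take (p - 1 + 1)).map x).prod = _
        rw [Nat.sub_add_cancel (by omega : 1 ≤ p)]
      rw [e]
      ring
  have hL := chainL j r hr D hD x y hV
  rw [y0, ← hw2] at hL
  refine ⟨tD j x, y, z, tD_pr j x hx, hy, hz, ?_, ?_⟩
  · rw [con_iff j (lett j r D) (tD_pr j x hx) hy]
    refine ⟨tD_ge j x hx, ?_, ?_⟩
    · intro s
      rw [ys0, ys1, y0]
      field_simp
      ring
    · intro s
      rw [xx_tD j x hj]
      exact hV s
  · have hF : ∀ i : Fin K, ∑ b, ∑ e, y b * z e * (AZ (coef D) i b e : ℚ) = 0 := by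
      intro i
      rcases Nat.lt_or_ge i.val 2 with h | h
      · rcases Nat.lt_or_ge i.val 1 with h' | h'
        · have hi : i.val = 0 := by omega
          rw [hi, pay0, y0, y1, z0, z1]
          field_simp
          ring
        · have hi : i.val = 1 := by omega
          rw [hi, pay1, hL, y1, z0, z1]
          field_simp
          ring
      · exact pay2 _ _ _ _ h
    intro i₀
    rw [hF i₀]
    have e : ∀ i : Fin K, ∑ b, ∑ e, tD j x i * y b * z e * (AZ (coef D) i b e : ℚ) = 0 := by
      intro i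
      have : ∑ b, ∑ e, tD j x i * y b * z e * (AZ (coef D) i b e : ℚ) =
          tD j x i * ∑ b, ∑ e, y b * z e * (AZ (coef D) i b e : ℚ) := by
        rw [Finset.mul_sum]
        apply Finset.sum_congr rfl
        intro b _
        rw [Finset.mul_sum]
        apply Finset.sum_congr rfl
        intro e _
        ring
      rw [this, hF i, mul_zero]
    rw [Finset.sum_congr rfl (fun i _ => e i)]
    simp

end

end Pool.Agent.Work.MP_9d4f6b_lc.H
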