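import Pool.Agent.Work.MP_9d4f6b_lc.H.PrimA

/-!
MODULE PRIMC (M). payB is primitive recursive (K and j are constants). First XN, XQ for the two constant
values of the Boolean, VN, QN, SN in composed form.
-/

set_option linter.unusedVariables false
set_option linter.style.longLine false

namespace Pool.Agent.Work.MP_9d4f6b_lc.H

section

variable {K : ℕ} {α : Type} [Primcodable α]

private theorem rc (n : ℕ) : Primrec fun _ : α => n := Primrec.const n

private theorem radd {f g : α → ℕ} (hf : Primrec f) (hg : Primrec g) :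
    Primrec fun a => f a + g a := Primrec.nat_add.comp hf hg

private theorem rsub {f g : α → ℕ} (hf : Primrec f) (hg : Primrec g) :
    Primrec fun a => f a - g a := Primrec.nat_sub.comp hf hg

private theorem rdiv {f g : α → ℕ} (hf : Primrec f) (hg : Primrec g) :
    Primrec fun a => f a / g a := Primrec.nat_div.comp hf hg

private theorem rmod {f g : α → ℕ} (hf : Primrec f) (hg : Primrec g) :
    Primrec fun a => f a % g a := Primrec.nat_mod.comp hf hg

private theorem req {f g : α → ℕ} (hf : Primrec f) (hg : Primrec g) :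
    PrimrecPred fun a => f a = g a := Primrec.eq.comp hf hg

private theorem rlt {f g : α → ℕ} (hf : Primrec f) (hg : Primrec g) :
    PrimrecPred fun a => f a < g a := Primrec.nat_lt.comp hf hg

private theorem rXN (j : ℕ) {l i : α → ℕ} (hl : Primrec l) (hi : Primrec i) :
    Primrec fun a => XN K j (l a) (i a) := by
  unfold XN
  exact Primrec.ite (req hl (rc _)) (rc _) (Primrec.ite (req hi hl) (rc _) (rc _))

private theorem rXQt (j : ℕ) {l i q : α → ℕ} (hl : Primrec l) (hi : Primrec i) (hq : Primrec q) :
    Primrec fun a => XQ K j (l a) (i a) (q a) true := by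
  have h : Primrec fun a => if q a = 1 then 3 * K else
      if q a ≠ 2 then XN K j (l a) (i a) else 6 * K - XN K j (l a) (i a) := by
    refine Primrec.ite (req hq (rc _)) (rc _) (Primrec.ite (req hq (rc 2)).not (rXN j hl hi) ?_)
    exact rsub (rc _) (rXN j hl hi)
  refine h.of_eq fun a => ?_
  unfold XQ
  simp

private theorem rXQf (j : ℕ) {l i q : α → ℕ} (hl : Primrec l) (hi : Primrec i) (hq : Primrec q) :
    Primrec fun a => XQ K j (l a) (i a) (q a) false := by
  have h : Primrec fun a => if q a = 1 then 3 * K else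
      if q a = 2 then XN K j (l a) (i a) else 6 * K - XN K j (l a) (i a) := by
    refine Primrec.ite (req hq (rc _)) (rc _) (Primrec.ite (req hq (rc 2)) (rXN j hl hi) ?_)
    exact rsub (rc _) (rXN j hl hi)
  refine h.of_eq fun a => ?_
  unfold XQ
  simp

private theorem rVN {s b : α → ℕ} (hs : Primrec s) (hb : Primrec b) :
    Primrec fun a => VN (s a) (b a) := by
  unfold VN
  refine Primrec.ite (rlt hb (rc _)) (rc _) ?_
  refine Primrec.ite (req (rdiv (rsub hb (rc _)) (rc _)) hs) ?_ (rc _)
  exact Primrec.ite (req (rmod (rsub hb (rc _)) (rc _)) (rc _)) (rc _) (rc _)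

private theorem rQN {r s b : α → ℕ} (hr : Primrec r) (hs : Primrec s) (hb : Primrec b) :
    Primrec fun a => QN (r a) (s a) (b a) := by
  unfold QN
  refine Primrec.ite (req (rmod hs hr) (rc _)) ?_ (rVN (rsub hs (rc _)) hb)
  exact Primrec.ite (req hb (rc _)) (rc _) (rc _)

private theorem rSN {s b : α → ℕ} (hs : Primrec s) (hb : Primrec b) :
    Primrec fun a => SN (s a) (b a) := by
  unfold SN
  refine Primrec.ite (req hb (rc _)) (rc _) (Primrec.ite (req hb (rc _)) (rc _) ?_)
  exact Primrec.ite (req (rdiv (rsub hb (rc _)) (rc _)) hs) (rc _) (rc _)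

theorem prim_payB (j : Fin K) {r : α → ℕ} {D : α → Frm K} {i b c : α → ℕ} (hr : Primrec r)
    (hD : Primrec D) (hi : Primrec i) (hb : Primrec b) (hc : Primrec c) :
    Primrec (fun a => payB j (r a) (D a) (i a) (b a) (c a)) := by
  have hk : Primrec fun a => c a - K := rsub hc (rc _)
  have hs : Primrec fun a => (c a - K) / 4 := rdiv hk (rc _)
  have hm : Primrec fun a => (c a - K) % 4 := rmod hk (rc _)
  have hl : Primrec fun a => lettN j (r a) (D a) ((c a - K) / 4) :=
    (prim_lett j).comp (Primrec.pair hr (Primrec.pair hD hs))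
  have hV := rVN hs hb
  have hQ := rQN hr hs hb
  have hS := rSN hs hb
  unfold payB
  refine Primrec.ite (rlt hc (rc _)) (Primrec.ite (req hi hc) (rc _) (rc _)) ?_
  refine Primrec.ite (req hm (rc _)) (radd (rc _) hS) ?_
  refine Primrec.ite (req hm (rc _)) (rsub (rc _) hS) ?_
  refine Primrec.ite (req hm (rc _)) (radd hV (rXQt _ hl hi hQ)) ?_
  exact rsub (radd (rXQf _ hl hi hQ) (rc _)) hV

end

end Pool.Agent.Work.MP_9d4f6b_lc.H
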