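import Pool.Agent.Work.MP_9d4f6b_lc.H.PrimB
import Pool.Agent.Work.MP_9d4f6b_lc.H.PrimC

/-!
MODULE PRIMD (M). payN (case distinctions, g1, g2, g3 of natural numbers) and the whole game
(Primrec.list_map over Primrec.list_range, mN, nN from Primrec.list_length).
-/

set_option linter.unusedVariables false
set_option linter.style.longLine false

namespace Pool.Agent.Work.MP_9d4f6b_lc.H

section

variable {K : ℕ}

private theorem pD_add {α : Type} [Primcodable α] {f g : α → ℕ} (hf : Primrec f)
    (hg : Primrec g) : Primrec (fun a => f a + g a) := Primrec.nat_add.comp hf hg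

private theorem pD_mul {α : Type} [Primcodable α] {f g : α → ℕ} (hf : Primrec f)
    (hg : Primrec g) : Primrec (fun a => f a * g a) := Primrec.nat_mul.comp hf hg

private theorem pD_sub {α : Type} [Primcodable α] {f g : α → ℕ} (hf : Primrec f)
    (hg : Primrec g) : Primrec (fun a => f a - g a) := Primrec.nat_sub.comp hf hg

private theorem pD_div {α : Type} [Primcodable α] {f g : α → ℕ} (hf : Primrec f)
    (hg : Primrec g) : Primrec (fun a => f a / g a) := Primrec.nat_div.comp hf hg

private theorem pD_mod {α : Type} [Primcodable α] {f g : α → ℕ} (hf : Primrec f)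
    (hg : Primrec g) : Primrec (fun a => f a % g a) := Primrec.nat_mod.comp hf hg

private theorem pD_eq {α : Type} [Primcodable α] {f : α → ℕ} (hf : Primrec f) (n : ℕ) :
    PrimrecPred (fun a => f a = n) := Primrec.eq.comp hf (Primrec.const n)

private theorem pD_lt {α : Type} [Primcodable α] {f : α → ℕ} (hf : Primrec f) (n : ℕ) :
    PrimrecPred (fun a => f a < n) := Primrec.nat_lt.comp hf (Primrec.const n)

private theorem pD_le {α : Type} [Primcodable α] {f : α → ℕ} (hf : Primrec f) (n : ℕ) :
    PrimrecPred (fun a => n ≤ f a) := Primrec.nat_le.comp (Primrec.const n) hf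

private theorem pD_g1 {α : Type} [Primcodable α] {i g h : α → ℕ} (hi : Primrec i)
    (hg : Primrec g) (hh : Primrec h) : Primrec (fun a => g1 (i a) (g a) (h a)) := by
  unfold g1
  exact Primrec.ite (pD_eq hi 0) (Primrec.const 2) (Primrec.ite (pD_eq hi 1)
    (Primrec.ite (pD_eq hh 0) (Primrec.const 1) (Primrec.ite (pD_eq hg 0) (Primrec.const 3)
      (Primrec.const 5))) (Primrec.const 0))

private theorem pD_g2 {α : Type} [Primcodable α] {i g h : α → ℕ} (hi : Primrec i)
    (hg : Primrec g) (hh : Primrec h) : Primrec (fun a => g2 (i a) (g a) (h a)) := by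
  unfold g2
  exact Primrec.ite (pD_eq hg 0) (Primrec.const 3) (Primrec.ite (pD_eq hi 1)
    (Primrec.ite (pD_eq hh 0) (Primrec.const 4) (Primrec.const 6))
    (Primrec.ite (pD_eq hh 0) (Primrec.const 2) (Primrec.const 4)))

private theorem pD_g3 {α : Type} [Primcodable α] {i g h : α → ℕ} (hi : Primrec i)
    (hg : Primrec g) (hh : Primrec h) : Primrec (fun a => g3 (i a) (g a) (h a)) := by
  unfold g3
  exact Primrec.ite (pD_eq hh 0) (Primrec.const 3) (Primrec.ite (pD_eq hg 0) (Primrec.const 4)
    (Primrec.ite (pD_eq hi 1) (Primrec.const 1) (Primrec.const 2)))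

private theorem pD_payN {α : Type} [Primcodable α] (j : Fin K) {r : α → ℕ} {D : α → Frm K}
    {p a b c : α → ℕ} (hr : Primrec r) (hD : Primrec D) (hp : Primrec p) (ha : Primrec a)
    (hb : Primrec b) (hc : Primrec c) :
    Primrec (fun x => payN j (r x) (D x) (p x) (a x) (b x) (c x)) := by
  have hb2 := pD_sub hb (Primrec.const 2)
  have hc2 := pD_sub hc (Primrec.const 2)
  have hc4 := pD_sub hc (Primrec.const 4)
  have hA := prim_payA hr hD ha hb2 hc2
  have hB := prim_payB j hr hD ha hb2 hc4
  unfold payN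
  exact Primrec.ite (pD_eq hp 0)
    (Primrec.ite (pD_lt hb 2) (Primrec.ite (pD_lt hc 2) (pD_g1 ha hb hc) (Primrec.const 0))
      (Primrec.ite ((pD_le hc 2).and (pD_lt hc 4)) hA (Primrec.const 0)))
    (Primrec.ite (pD_eq hp 1)
      (Primrec.ite (pD_lt hb 2) (Primrec.ite (pD_lt hc 2) (pD_g2 ha hb hc)
        (Primrec.ite (pD_lt hc 4) (Primrec.const 0) (Primrec.const 2)))
        (Primrec.ite ((pD_le hc 2).and (pD_lt hc 4)) (Primrec.const 1) (Primrec.const 0)))
      (Primrec.ite (pD_lt hb 2) (Primrec.ite (pD_lt hc 2)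
        (pD_add (Primrec.const (3 * K + 1)) (pD_g3 ha hb hc)) (Primrec.const 0))
        (Primrec.ite (pD_lt hc 4) (Primrec.const (3 * K + 1)) hB)))

theorem prim_game (j : Fin K) : Primrec (fun p : ℕ × Frm K => gameN j (2 * p.1) p.2) := by
  have hr : Primrec (fun p : ℕ × Frm K => 2 * p.1) := pD_mul (Primrec.const 2) Primrec.fst
  have hD : Primrec (fun p : ℕ × Frm K => p.2) := Primrec.snd
  have hl : Primrec (fun p : ℕ × Frm K => p.2.length) := Primrec.list_length.comp hD
  have hlr := pD_mul hl hr
  have hm : Primrec (fun p : ℕ × Frm K => mN (2 * p.1) p.2) := by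
    unfold mN
    exact pD_add (Primrec.const 2) (pD_add (Primrec.const 2) (pD_mul hlr (Primrec.const 2)))
  have hn : Primrec (fun p : ℕ × Frm K => nN (2 * p.1) p.2) := by
    unfold nN
    exact pD_add (Primrec.const 2) (pD_add (Primrec.const 2) (pD_add (Primrec.const K)
      (pD_mul hlr (Primrec.const 4))))
  have hmn := pD_mul hm hn
  have hKmn := pD_mul (pD_mul (Primrec.const K) hm) hn
  have hlist : Primrec (fun p : ℕ × Frm K =>
      (List.range (3 * K * mN (2 * p.1) p.2 * nN (2 * p.1) p.2)).map fun s =>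
        payN j (2 * p.1) p.2 (s / (K * mN (2 * p.1) p.2 * nN (2 * p.1) p.2))
          (s / (mN (2 * p.1) p.2 * nN (2 * p.1) p.2) % K)
          (s / nN (2 * p.1) p.2 % mN (2 * p.1) p.2) (s % nN (2 * p.1) p.2)) := by
    have hs : Primrec (fun x : (ℕ × Frm K) × ℕ => x.2) := Primrec.snd
    have hx : Primrec (fun x : (ℕ × Frm K) × ℕ => x.1) := Primrec.fst
    refine Primrec.list_map (Primrec.list_range.comp
      (pD_mul (pD_mul (Primrec.const (3 * K)) hm) hn)) (Primrec₂.mk ?_)
    exact pD_payN j (hr.comp hx) (hD.comp hx) (pD_div hs (hKmn.comp hx))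
      (pD_mod (pD_div hs (hmn.comp hx)) (Primrec.const K))
      (pD_mod (pD_div hs (hn.comp hx)) (hm.comp hx)) (pD_mod hs (hn.comp hx))
  exact Primrec.pair (Primrec.const K) (Primrec.pair hm (Primrec.pair hn hlist))

end

end Pool.Agent.Work.MP_9d4f6b_lc.H
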