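import Pool.Agent.Work.MP_9d4f6b_lc.H.Defs

/-!
MODULE PRIME (M). The side conditions and the finite disjunction. PROOF. prim_hom: all terms of the list
have length 2 d: PrimrecPred.forall_mem_list, with the parameter d use a relation version
(PrimrecRel.forall_mem_list) or the function: fold over the list. comp_bex: ComputablePred of a finite
disjunction over Fin K: induction on the list of all elements of Fin K (finRange), ComputablePred p ↔ ∃ f
computable Bool function (ComputablePred.computable_iff), or of two Boolean functions is computable
(Primrec.or.to_comp.comp). comp_and: the same with and.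
-/

set_option linter.unusedVariables false
set_option linter.style.longLine false

namespace Pool.Agent.Work.MP_9d4f6b_lc.H

section

variable {K : ℕ} {α : Type} [Primcodable α]

theorem prim_hom : PrimrecPred (fun p : ℕ × Frm K => 0 < p.1 ∧ Hom (2 * p.1) p.2) := by
  have h1 : PrimrecPred (fun p : ℕ × Frm K => 0 < p.1) :=
    Primrec.nat_lt.comp (Primrec.const 0) Primrec.fst
  have h3 : PrimrecRel (fun (m : ℤ × List (Fin K)) (r : ℕ) => m.2.length = r) :=
    Primrec.eq.comp (Primrec.list_length.comp (Primrec.snd.comp Primrec.fst)) Primrec.snd
  have h4 := PrimrecRel.forall_mem_list h3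
  have h5 : PrimrecPred (fun p : ℕ × Frm K => ∀ m ∈ p.2, m.2.length = 2 * p.1) :=
    h4.comp Primrec.snd (Primrec.nat_mul.comp (Primrec.const 2) Primrec.fst)
  exact h1.and h5

private theorem comp_or {p q : α → Prop} (hp : ComputablePred p) (hq : ComputablePred q) :
    ComputablePred (fun a => p a ∨ q a) := by
  obtain ⟨f, hf, rfl⟩ := ComputablePred.computable_iff.1 hp
  obtain ⟨g, hg, rfl⟩ := ComputablePred.computable_iff.1 hq
  refine ComputablePred.computable_iff.2 ⟨fun a => f a || g a, Primrec.or.to_comp.comp hf hg, ?_⟩
  funext a
  simp

theorem comp_and {p q : α → Prop} (hp : ComputablePred p) (hq : ComputablePred q) :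
    ComputablePred (fun a => p a ∧ q a) := by
  obtain ⟨f, hf, rfl⟩ := ComputablePred.computable_iff.1 hp
  obtain ⟨g, hg, rfl⟩ := ComputablePred.computable_iff.1 hq
  refine ComputablePred.computable_iff.2 ⟨fun a => f a && g a, Primrec.and.to_comp.comp hf hg, ?_⟩
  funext a
  simp

theorem comp_bex {p : Fin K → α → Prop} (h : ∀ j, ComputablePred (p j)) :
    ComputablePred (fun a => ∃ j, p j a) := by
  have key : ∀ l : List (Fin K), ComputablePred (fun a => ∃ j ∈ l, p j a) := by
    intro l
    induction l with
    | nil =>
      refine ComputablePred.computable_iff.2 ⟨fun _ => false, Computable.const false, ?_⟩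
      funext a
      simp
    | cons j l ih =>
      have := comp_or (h j) ih
      refine this.of_eq ?_
      intro a
      simp
  refine (key (List.finRange K)).of_eq ?_
  intro a
  simp

theorem comp_comp {β : Type} [Primcodable β] {p : β → Prop} (hp : ComputablePred p) {f : α → β}
    (hf : Computable f) : ComputablePred (fun a => p (f a)) := by
  obtain ⟨g, hg, rfl⟩ := ComputablePred.computable_iff.1 hp
  exact ComputablePred.computable_iff.2 ⟨fun a => g (f a), hg.comp hf, rfl⟩

end

end Pool.Agent.Work.MP_9d4f6b_lc.H
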