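import Pool.Agent.Work.MP_9d4f6b_lc.H.Defs

/-!
MODULE SHIFT (M). The shifted natural payoffs AN, BN give the integral system ZSys.
PROOF. shA D + AZ ≥ 0: |AZ| ≤ max(1, |c_τ|) ≤ 1 + ∑ |c_m| (List.le_sum_of_mem / single_le_sum on the
mapped list) so the cast of AN i b e to ℚ is shA D + AZ; the cast of BN c i b is (3 K + 1) + BZ because
|BZ| ≤ 3 K + 1 (|XX| ≤ 3 K, |cQ| ≤ 1, |cV| ≤ 1; when cV s b ≠ 0 ... in any case |cV - XX cQ| ≤ 3 K + 1;
for the interior constraint 1 - 3 K ≥ -(3 K + 1)). Then ∑ i, ∑ b, t i y b (N + BZ) = N + ∑ ∑ t y BZ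
because ∑ t = ∑ y = 1, and the same for A (three sums equal to 1): the two systems are the same
for the same (t, y, z). Note K ≥ 1 follows from j : Fin K.
-/

set_option linter.unusedVariables false
set_option linter.style.longLine false

namespace Pool.Agent.Work.MP_9d4f6b_lc.H

section

variable {K : ℕ}

private theorem coef_le (D : Frm K) (τ : Fin D.length) :
    |coef D τ| + 1 ≤ (shA D : ℤ) := by
  have h1 : (coef D τ).natAbs ∈ D.map fun m => m.1.natAbs :=
    List.mem_map.2 ⟨D.get τ, List.get_mem D τ, rfl⟩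
  have h2 : (coef D τ).natAbs ≤ (D.map fun m => m.1.natAbs).sum :=
    List.single_le_sum (fun x _ => Nat.zero_le x) _ h1
  unfold shA
  push_cast
  have h3 : ((coef D τ).natAbs : ℤ) ≤ (((D.map fun m => m.1.natAbs).sum : ℕ) : ℤ) := by
    exact_mod_cast h2
  rw [Int.natCast_natAbs] at h3
  push_cast at h3
  linarith

private theorem one_le_shA (D : Frm K) : (1 : ℤ) ≤ (shA D : ℤ) := by
  unfold shA
  push_cast
  have : (0 : ℤ) ≤ (((D.map fun m => m.1.natAbs).sum : ℕ) : ℤ) := Int.natCast_nonneg _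
  push_cast at this
  linarith

private theorem cL_le (r : ℕ) (D : Frm K) (b : YY D.length r) :
    |cL (coef D) b| + 1 ≤ (shA D : ℤ) := by
  have h0 := one_le_shA D
  rcases b with e | ⟨⟨τ, p⟩, σ⟩
  · simpa [cL] using h0
  · have h1 := coef_le D τ
    show |if p.val + 1 = r then (if σ = 0 then coef D τ else - coef D τ) else 0| + 1 ≤ _
    split_ifs
    · exact h1
    · rw [abs_neg]
      exact h1
    · simpa using h0

theorem cast_AN (r : ℕ) (D : Frm K) (i : Fin K) (b : YY D.length r) (e : Fin 2) :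
    (AN r D i b e : ℚ) = (shA D : ℚ) + (AZ (coef D) i b e : ℚ) := by
  have h0 := one_le_shA D
  have h1 := cL_le r D b
  have h2 := neg_abs_le (cL (coef D) b)
  have h3 := le_abs_self (cL (coef D) b)
  have h : 0 ≤ (shA D : ℤ) + AZ (coef D) i b e := by
    unfold AZ
    split_ifs <;> linarith
  have h4 : ((AN r D i b e : ℕ) : ℤ) = (shA D : ℤ) + AZ (coef D) i b e :=
    Int.toNat_of_nonneg h
  have h5 : (((AN r D i b e : ℕ) : ℤ) : ℚ) = (((shA D : ℤ) + AZ (coef D) i b e : ℤ) : ℚ) := by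
    rw [h4]
  push_cast at h5
  exact h5

private theorem cP_cases {T r : ℕ} (b : YY T r) : cP b = 0 ∨ cP b = 1 := by
  rcases b with e | x
  · show (if e = 0 then (1 : ℤ) else 0) = 0 ∨ (if e = 0 then (1 : ℤ) else 0) = 1
    split_ifs <;> simp
  · exact Or.inl rfl

private theorem cV_cases {T r : ℕ} (s : Pos T r) (b : YY T r) :
    cV s b = 0 ∨ cV s b = 1 ∨ cV s b = -1 := by
  rcases b with e | ⟨s', σ⟩
  · exact Or.inl rfl
  · show (if s' = s then (if σ = 0 then (1 : ℤ) else -1) else 0) = 0 ∨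
      (if s' = s then (if σ = 0 then (1 : ℤ) else -1) else 0) = 1 ∨
      (if s' = s then (if σ = 0 then (1 : ℤ) else -1) else 0) = -1
    split_ifs <;> simp

private theorem cS_cases {T r : ℕ} (s : Pos T r) (b : YY T r) : cS s b = 0 ∨ cS s b = 1 := by
  rcases b with e | ⟨s', σ⟩
  · exact Or.inl rfl
  · show (if s' = s then (1 : ℤ) else 0) = 0 ∨ (if s' = s then (1 : ℤ) else 0) = 1
    split_ifs <;> simp

private theorem cQ_cases {T r : ℕ} (s : Pos T r) (b : YY T r) :
    cQ s b = 0 ∨ cQ s b = 1 ∨ cQ s b = -1 := by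
  unfold cQ
  split_ifs with h
  · rcases cP_cases b with h1 | h1
    · exact Or.inl h1
    · exact Or.inr (Or.inl h1)
  · exact cV_cases _ b

private theorem XX_le (j l i : Fin K) : -(3 * K : ℤ) ≤ XX j l i ∧ XX j l i ≤ 3 * K := by
  have hK : (1 : ℤ) ≤ K := by
    have := j.pos
    omega
  unfold XX
  split_ifs <;> constructor <;> linarith

private theorem XQ_le {T r : ℕ} (j l i : Fin K) (s : Pos T r) (b : YY T r) :
    -(3 * K : ℤ) ≤ XX j l i * cQ s b ∧ XX j l i * cQ s b ≤ 3 * K := by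
  obtain ⟨h1, h2⟩ := XX_le j l i
  have hK : (0 : ℤ) ≤ K := Int.natCast_nonneg _
  rcases cQ_cases s b with h | h | h <;> rw [h] <;> constructor <;> linarith

theorem cast_BN (j : Fin K) (r : ℕ) (D : Frm K) (c : CC K D.length r) (i : Fin K) (b : YY D.length r) :
    (BN j r D c i b : ℚ) = ((3 * K + 1 : ℕ) : ℚ) + (BZ j (lett j r D) c i b : ℚ) := by
  have hK : (0 : ℤ) ≤ K := Int.natCast_nonneg _
  have h : 0 ≤ ((3 * K + 1 : ℕ) : ℤ) + BZ j (lett j r D) c i b := by
    push_cast
    rcases c with i₀ | ⟨s, ρ⟩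
    · show 0 ≤ 3 * (K : ℤ) + 1 + (1 - ((if i = i₀ then 3 * K else 0 : ℕ) : ℤ))
      split_ifs <;> push_cast <;> linarith
    · obtain ⟨h1, h2⟩ := XQ_le j (lett j r D s) i s b
      show 0 ≤ 3 * (K : ℤ) + 1 + (if ρ = 0 then cS s b - cP b
        else if ρ = 1 then cP b - cS s b
        else if ρ = 2 then cV s b - XX j (lett j r D s) i * cQ s b
        else XX j (lett j r D s) i * cQ s b - cV s b)
      have h3 : cV s b ≤ 1 ∧ -1 ≤ cV s b := by
        rcases cV_cases s b with h | h | h <;> rw [h] <;> constructor <;> norm_num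
      have h4 : 0 ≤ cS s b ∧ cS s b ≤ 1 := by
        rcases cS_cases s b with h | h <;> rw [h] <;> constructor <;> norm_num
      have h5 : 0 ≤ cP b ∧ cP b ≤ 1 := by
        rcases cP_cases b with h | h <;> rw [h] <;> constructor <;> norm_num
      obtain ⟨h3, h3'⟩ := h3
      obtain ⟨h4, h4'⟩ := h4
      obtain ⟨h5, h5'⟩ := h5
      split_ifs <;> linarith
  have h4 : ((BN j r D c i b : ℕ) : ℤ) = ((3 * K + 1 : ℕ) : ℤ) + BZ j (lett j r D) c i b :=
    Int.toNat_of_nonneg h
  have h5 : (((BN j r D c i b : ℕ) : ℤ) : ℚ) =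
      ((((3 * K + 1 : ℕ) : ℤ) + BZ j (lett j r D) c i b : ℤ) : ℚ) := by
    rw [h4]
  push_cast at h5 ⊢
  exact h5

private theorem sum2 {α β : Type} [Fintype α] [Fintype β] {t : α → ℚ} {y : β → ℚ} (ht : IsPr t)
    (hy : IsPr y) (S : ℚ) (f : α → β → ℚ) :
    ∑ i, ∑ b, t i * y b * (S + f i b) = S + ∑ i, ∑ b, t i * y b * f i b := by
  have h1 : ∀ i b, t i * y b * (S + f i b) = t i * (y b * S) + t i * y b * f i b := fun i b => by
    ring
  simp only [h1, Finset.sum_add_distrib]
  congr 1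
  simp only [← Finset.mul_sum, ← Finset.sum_mul]
  rw [hy.2, ht.2]
  ring

private theorem sum3 {α β γ : Type} [Fintype α] [Fintype β] [Fintype γ] {t : α → ℚ} {y : β → ℚ}
    {z : γ → ℚ} (ht : IsPr t) (hy : IsPr y) (hz : IsPr z) (S : ℚ) (f : α → β → γ → ℚ) :
    ∑ i, ∑ b, ∑ e, t i * y b * z e * (S + f i b e) =
      S + ∑ i, ∑ b, ∑ e, t i * y b * z e * f i b e := by
  have h1 : ∀ i b e, t i * y b * z e * (S + f i b e) =
      t i * (y b * (z e * S)) + t i * y b * z e * f i b e := fun i b e => by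
    ring
  simp only [h1, Finset.sum_add_distrib]
  congr 1
  simp only [← Finset.mul_sum, ← Finset.sum_mul]
  rw [hy.2, ht.2, hz.2]
  ring

theorem sys_iff (j : Fin K) (r : ℕ) (D : Frm K) :
    Sys (3 * K + 1) (AN r D) (BN j r D) ↔ ZSys j (lett j r D) (coef D) := by
  unfold Sys ZSys
  refine exists_congr fun t => exists_congr fun y => exists_congr fun z => ?_
  refine and_congr_right fun ht => and_congr_right fun hy => and_congr_right fun hz => ?_
  refine and_congr (forall_congr' fun c => ?_) (forall_congr' fun i₀ => ?_)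
  · simp only [cast_BN]
    rw [sum2 ht hy]
    constructor <;> intro h <;> linarith
  · simp only [cast_AN]
    rw [sum2 hy hz, sum3 ht hy hz]
    constructor <;> intro h <;> linarith

end

end Pool.Agent.Work.MP_9d4f6b_lc.H
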