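import Pool.Agent.Work.MP_9d4f6b_lc.H.Full
import Pool.Agent.Work.MP_9d4f6b_lc.H.Chain

/-!
MODULE UP (M). A solution of ZSys gives a rational point with x_j = 1. PROOF. x := xx j t; x j = 1
since XX j j i = 1 and ∑ t = 1. con_iff, both_zero, chainL: with P0 = y (inl 0), P1 = y (inl 1):
P1 z0 = P0 z1, P1 z1 = P0 D(x) z0. P0 ≠ 0: otherwise y (inr (s,0)) = y (inr (s,1)) = 0 for all s (both ≥ 0,
sum P0 = 0), so P1 = 1 (total mass), z0 = 0, z1 = 0 (second equation), contradiction with z0 + z1 = 1.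
z0 ≠ 0: otherwise P0 z1 = 0, z1 = 0, contradiction. Put w = P1 / P0; z1 = w z0; P1 w z0 = P0 D(x) z0, so
w^2 = D(x).
-/

set_option linter.unusedVariables false
set_option linter.style.longLine false

namespace Pool.Agent.Work.MP_9d4f6b_lc.H

section

variable {K : ℕ}

theorem aff_of_sys (hK : 3 ≤ K) (j : Fin K) (r : ℕ) (hr : 0 < r) (D : Frm K) (hD : Hom r D)
    (h : ZSys j (lett j r D) (coef D)) : Aff j D := by
  obtain ⟨t, y, z, ht, hy, hz, hc, hp⟩ := h
  obtain ⟨hi, hs, hV⟩ := (con_iff j (lett j r D) ht hy).1 hc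
  obtain ⟨e1, e2⟩ := both_zero hK (coef D) ht hi hp
  rw [chainL j r hr D hD (xx j t) y hV] at e2
  have hz1 : z 0 + z 1 = 1 := by
    have := hz.2
    rwa [Fin.sum_univ_two] at this
  have hP0 : y (Sum.inl 0) ≠ 0 := by
    intro h0
    have hz' : ∀ s : Pos D.length r, ∀ σ : Fin 2, y (Sum.inr (s, σ)) = 0 := by
      intro s σ
      have a := hs s
      have b0 := hy.1 (Sum.inr (s, 0))
      have b1 := hy.1 (Sum.inr (s, 1))
      rw [h0] at a
      rcases Fin.exists_fin_two.1 ⟨σ, rfl⟩ with h | h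
      · rw [h]; linarith
      · rw [h]; linarith
    have hP1 : y (Sum.inl 1) = 1 := by
      have h2 := hy.2
      rw [Fintype.sum_sum_type, Fin.sum_univ_two, h0] at h2
      rw [Finset.sum_eq_zero (fun b _ => hz' b.1 b.2)] at h2
      linarith
    rw [h0, hP1] at e1 e2
    have a1 : z 0 = 0 := by linarith
    have a2 : z 1 = 0 := by
      rw [a1] at e2
      linarith
    rw [a1, a2] at hz1
    norm_num at hz1
  have hz0 : z 0 ≠ 0 := by
    intro h0
    rw [h0, mul_zero] at e1
    have a2 : z 1 = 0 := by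
      rcases mul_eq_zero.1 e1.symm with h | h
      · exact absurd h hP0
      · exact h
    rw [h0, a2] at hz1
    norm_num at hz1
  refine ⟨xx j t, y (Sum.inl 1) / y (Sum.inl 0), ?_, ?_⟩
  · unfold xx
    rw [Finset.sum_congr rfl (fun i _ => by
      show ((XX j j i : ℤ) : ℚ) * t i = t i
      simp [XX])]
    exact ht.2
  · have e3 : z 1 = y (Sum.inl 1) / y (Sum.inl 0) * z 0 := by
      field_simp
      linarith
    rw [e3] at e2
    have e4 : y (Sum.inl 1) * (y (Sum.inl 1) / y (Sum.inl 0)) = y (Sum.inl 0) * evalF D (xx j t) := by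
      apply mul_right_cancel₀ hz0
      rw [← e2]
      ring
    rw [div_pow]
    field_simp at e4 ⊢
    linarith

end

end Pool.Agent.Work.MP_9d4f6b_lc.H
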