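import Pool.Agent.Work.MP_9d4f6b_lc.H.Core
import Pool.Agent.Work.MP_9d4f6b_lc.H.Shift
import Pool.Agent.Work.MP_9d4f6b_lc.H.Up
import Pool.Agent.Work.MP_9d4f6b_lc.H.Down
import Pool.Agent.Work.MP_9d4f6b_lc.H.Charts
import Pool.Agent.Work.MP_9d4f6b_lc.H.Code
import Pool.Agent.Work.MP_9d4f6b_lc.H.PrimD
import Pool.Agent.Work.MP_9d4f6b_lc.H.PrimE

/-!
Final assembly (proved here).
-/

set_option linter.unusedVariables false
set_option linter.style.longLine false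

namespace Pool.Agent.Work.MP_9d4f6b_lc.H

section

variable {K : ℕ}

theorem ne_iff (hK : 3 ≤ K) (j : Fin K) (r : ℕ) (D : Frm K) :
    HasNE (gameN j r D) ↔ ZSys j (lett j r D) (coef D) := by
  rw [code_iff, core (by omega), sys_iff]

theorem pt_iff (hK : 3 ≤ K) (d : ℕ) (hd : 0 < d) (D : Frm K) (hD : Hom (2 * d) D) :
    Pt D ↔ ∃ j, HasNE (gameN j (2 * d) D) := by
  constructor
  · intro h
    obtain ⟨j, hj⟩ := chart_of_pt d D hD h
    exact ⟨j, (ne_iff hK j _ D).2 (sys_of_chart j _ (by omega) D hD hj)⟩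
  · rintro ⟨j, hj⟩
    exact pt_of_aff j D (aff_of_sys hK j _ (by omega) D hD ((ne_iff hK j _ D).1 hj))

theorem main (hK : 3 ≤ K) (h : ComputablePred (fun g : ℕ × ℕ × ℕ × List ℕ => g.1 = K ∧ HasNE g)) :
    ComputablePred (fun p : ℕ × Frm K => (0 < p.1 ∧ Hom (2 * p.1) p.2) ∧ Pt p.2) := by
  have h1 : ∀ j : Fin K, ComputablePred (fun p : ℕ × Frm K => HasNE (gameN j (2 * p.1) p.2)) := by
    intro j
    refine (comp_comp h (prim_game j).to_comp).of_eq fun p => ?_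
    exact ⟨fun k => k.2, fun k => ⟨rfl, k⟩⟩
  have h2 := comp_bex h1
  obtain ⟨hd, hp⟩ := prim_hom (K := K)
  have h3 : ComputablePred (fun p : ℕ × Frm K => 0 < p.1 ∧ Hom (2 * p.1) p.2) := ⟨hd, hp.to_comp⟩
  refine (comp_and h3 h2).of_eq fun p => ?_
  constructor
  · rintro ⟨k1, k2⟩
    exact ⟨k1, (pt_iff hK p.1 k1.1 p.2 k1.2).2 k2⟩
  · rintro ⟨k1, k2⟩
    exact ⟨k1, (pt_iff hK p.1 k1.1 p.2 k1.2).1 k2⟩

end

end Pool.Agent.Work.MP_9d4f6b_lc.H
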