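import Pool.Agent.Work.MP_9d4f6b_lc.H.Defs

/-!
MODULE CORE0 (S-M). Expected payoffs in the gadget game: split the sums over the sum types
(Fintype.sum_sum_type), evaluate u1, u2, u3 by their definitions (simp [u1, u2, u3]), use ∑ t = 1.
-/

set_option linter.unusedVariables false
set_option linter.style.longLine false

namespace Pool.Agent.Work.MP_9d4f6b_lc.H

section

variable {K : ℕ} {Y C : Type} [Fintype Y] [Fintype C]

theorem ex1 (A : Fin K → Y → Fin 2 → ℕ) (y : Fin 2 ⊕ Y → ℚ) (z : Fin 2 ⊕ (Fin 2 ⊕ C) → ℚ) (i : Fin K) :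
    ∑ b, ∑ c, y b * z c * (u1 A i b c : ℚ) =
      (∑ g : Fin 2, ∑ h : Fin 2, y (Sum.inl g) * z (Sum.inl h) * (g1 i g h : ℚ)) +
      ∑ b, ∑ e, y (Sum.inr b) * z (Sum.inr (Sum.inl e)) * (A i b e : ℚ) := by
  rw [Fintype.sum_sum_type]
  congr 1
  · refine Finset.sum_congr rfl fun g _ => ?_
    rw [Fintype.sum_sum_type]
    simp [u1]
  · refine Finset.sum_congr rfl fun b _ => ?_
    rw [Fintype.sum_sum_type, Fintype.sum_sum_type]
    simp [u1]

theorem ex2g (t : Fin K → ℚ) (ht : ∑ i, t i = 1) (z : Fin 2 ⊕ (Fin 2 ⊕ C) → ℚ) (g : Fin 2) :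
    ∑ i, ∑ c, t i * z c * (u2 (Y := Y) i (Sum.inl g) c : ℚ) =
      (∑ i : Fin K, ∑ h : Fin 2, t i * z (Sum.inl h) * (g2 i g h : ℚ)) +
      2 * ∑ c, z (Sum.inr (Sum.inr c)) := by
  have h1 : ∀ i : Fin K, ∑ c, t i * z c * (u2 (Y := Y) i (Sum.inl g) c : ℚ) =
      (∑ h : Fin 2, t i * z (Sum.inl h) * (g2 i g h : ℚ)) +
        t i * (2 * ∑ c, z (Sum.inr (Sum.inr c))) := by
    intro i
    rw [Fintype.sum_sum_type, Fintype.sum_sum_type]
    simp only [u2, Nat.cast_zero, mul_zero, Finset.sum_const_zero, zero_add]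
    congr 1
    rw [Finset.mul_sum, Finset.mul_sum]
    refine Finset.sum_congr rfl fun c _ => ?_
    push_cast
    ring
  rw [Finset.sum_congr rfl fun i _ => h1 i, Finset.sum_add_distrib, ← Finset.sum_mul, ht, one_mul]

theorem ex2y (t : Fin K → ℚ) (ht : ∑ i, t i = 1) (z : Fin 2 ⊕ (Fin 2 ⊕ C) → ℚ) (b : Y) :
    ∑ i, ∑ c, t i * z c * (u2 i (Sum.inr b) c : ℚ) = ∑ e, z (Sum.inr (Sum.inl e)) := by
  have h1 : ∀ i : Fin K, ∑ c, t i * z c * (u2 i (Sum.inr b) c : ℚ) =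
      t i * ∑ e, z (Sum.inr (Sum.inl e)) := by
    intro i
    rw [Fintype.sum_sum_type, Fintype.sum_sum_type]
    simp only [u2, Nat.cast_zero, mul_zero, Finset.sum_const_zero, zero_add, add_zero, Nat.cast_one,
      mul_one]
    rw [Finset.mul_sum]
  rw [Finset.sum_congr rfl fun i _ => h1 i, ← Finset.sum_mul, ht, one_mul]

theorem ex3h (N : ℕ) (B : C → Fin K → Y → ℕ) (t : Fin K → ℚ) (ht : ∑ i, t i = 1)
    (y : Fin 2 ⊕ Y → ℚ) (h : Fin 2) :
    ∑ i, ∑ b, t i * y b * (u3 N B i b (Sum.inl h) : ℚ) =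
      (N : ℚ) * (∑ b, y b) + ∑ i : Fin K, ∑ g : Fin 2, t i * y (Sum.inl g) * (g3 i g h : ℚ) := by
  have h1 : ∀ i : Fin K, ∑ b, t i * y b * (u3 N B i b (Sum.inl h) : ℚ) =
      t i * ((N : ℚ) * ∑ b, y b) + ∑ g : Fin 2, t i * y (Sum.inl g) * (g3 i g h : ℚ) := by
    intro i
    rw [Fintype.sum_sum_type, Fintype.sum_sum_type]
    simp only [u3, Nat.cast_add]
    rw [mul_add, mul_add, Finset.mul_sum, Finset.mul_sum, Finset.mul_sum, Finset.mul_sum]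
    have e1 : ∑ g : Fin 2, t i * y (Sum.inl g) * ((N : ℚ) + (g3 i g h : ℚ)) =
        ∑ g : Fin 2, t i * ((N : ℚ) * y (Sum.inl g)) +
          ∑ g : Fin 2, t i * y (Sum.inl g) * (g3 i g h : ℚ) := by
      rw [← Finset.sum_add_distrib]
      exact Finset.sum_congr rfl fun g _ => by ring
    have e2 : ∑ b : Y, t i * y (Sum.inr b) * (N : ℚ) = ∑ b : Y, t i * ((N : ℚ) * y (Sum.inr b)) :=
      Finset.sum_congr rfl fun b _ => by ring
    rw [e1, e2]
    ring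
  rw [Finset.sum_congr rfl fun i _ => h1 i, Finset.sum_add_distrib, ← Finset.sum_mul, ht, one_mul]

theorem ex3e (N : ℕ) (B : C → Fin K → Y → ℕ) (t : Fin K → ℚ) (ht : ∑ i, t i = 1)
    (y : Fin 2 ⊕ Y → ℚ) (e : Fin 2) :
    ∑ i, ∑ b, t i * y b * (u3 N B i b (Sum.inr (Sum.inl e)) : ℚ) = N * ∑ b, y (Sum.inr b) := by
  have h1 : ∀ i : Fin K, ∑ b, t i * y b * (u3 N B i b (Sum.inr (Sum.inl e)) : ℚ) =
      t i * ((N : ℚ) * ∑ b, y (Sum.inr b)) := by
    intro i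
    rw [Fintype.sum_sum_type]
    simp only [u3, Nat.cast_zero, mul_zero, Finset.sum_const_zero, zero_add]
    rw [Finset.mul_sum, Finset.mul_sum]
    exact Finset.sum_congr rfl fun b _ => by ring
  rw [Finset.sum_congr rfl fun i _ => h1 i, ← Finset.sum_mul, ht, one_mul]

theorem ex3c (N : ℕ) (B : C → Fin K → Y → ℕ) (t : Fin K → ℚ) (y : Fin 2 ⊕ Y → ℚ) (c : C) :
    ∑ i, ∑ b, t i * y b * (u3 N B i b (Sum.inr (Sum.inr c)) : ℚ) =
      ∑ i, ∑ b, t i * y (Sum.inr b) * (B c i b : ℚ) := by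
  refine Finset.sum_congr rfl fun i _ => ?_
  rw [Fintype.sum_sum_type]
  simp only [u3, Nat.cast_zero, mul_zero, Finset.sum_const_zero, zero_add]

end

end Pool.Agent.Work.MP_9d4f6b_lc.H
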