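import Pool.Agent.Work.MP_9d4f6b_lc.H.Supp
import Pool.Agent.Work.MP_9d4f6b_lc.H.Core0

/-!
MODULE CORE2 (M). Equilibrium without switches g gives a solution of the system.
PROOF. t := t, y := y ∘ inr (a probability vector because y (inl g) = 0), z e := z (inr (inl e)) / r0,
r0 = ∑ e, z (inr (inl e)) > 0. Some base e has z ≠ 0; its payoff is N * 1 (ex3e), so by opt3 the payoff
of c (ex3c) is ≤ N: the constraints. Player 1: by opt1 (sum form n1 of the equilibrium, or opt1 and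
∑ t = 1) and ex1: the terms with g vanish, so for all i₀:
∑ b, ∑ e, y z A i₀ ≤ ∑ i, t i ∑ b, ∑ e, y z A i with z unnormalised; divide by r0.
-/

set_option linter.unusedVariables false
set_option linter.style.longLine false

namespace Pool.Agent.Work.MP_9d4f6b_lc.H

section

variable {K : ℕ} {Y C : Type} [Fintype Y] [Fintype C]

theorem sys_of_ne (N : ℕ) (A : Fin K → Y → Fin 2 → ℕ) (B : C → Fin K → Y → ℕ) {t : Fin K → ℚ}
    {y : Fin 2 ⊕ Y → ℚ} {z : Fin 2 ⊕ (Fin 2 ⊕ C) → ℚ} (h : IsNE (u1 A) u2 (u3 N B) t y z)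
    (hg : ∀ g, y (Sum.inl g) = 0) (h0 : 0 < ∑ e, z (Sum.inr (Sum.inl e))) : Sys N A B := by
  set r0 := ∑ e, z (Sum.inr (Sum.inl e)) with hr0
  have hy1 : ∑ b, y (Sum.inr b) = 1 := by
    have h1 := h.y1
    rw [Fintype.sum_sum_type] at h1
    simp only [hg, Finset.sum_const_zero, zero_add] at h1
    exact h1
  obtain ⟨e, -, he⟩ : ∃ e ∈ Finset.univ, z (Sum.inr (Sum.inl e)) ≠ 0 := by
    by_contra hc
    push Not at hc
    rw [hr0, Finset.sum_eq_zero hc] at h0
    exact lt_irrefl _ h0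
  have hA : ∀ i, ∑ b, ∑ c, y b * z c * (u1 A i b c : ℚ) =
      ∑ b, ∑ e, y (Sum.inr b) * z (Sum.inr (Sum.inl e)) * (A i b e : ℚ) := by
    intro i
    rw [ex1]
    simp only [hg, zero_mul, Finset.sum_const_zero, zero_add]
  have hdiv : ∀ f : Y → Fin 2 → ℚ,
      ∑ b, ∑ e, y (Sum.inr b) * (z (Sum.inr (Sum.inl e)) / r0) * f b e =
        (∑ b, ∑ e, y (Sum.inr b) * z (Sum.inr (Sum.inl e)) * f b e) / r0 := by
    intro f
    rw [Finset.sum_div]
    refine Finset.sum_congr rfl fun b _ => ?_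
    rw [Finset.sum_div]
    exact Finset.sum_congr rfl fun e _ => by ring
  refine ⟨t, fun b => y (Sum.inr b), fun e => z (Sum.inr (Sum.inl e)) / r0, ⟨h.x0, h.x1⟩,
    ⟨fun b => h.y0 _, hy1⟩, ⟨fun e => div_nonneg (h.z0 _) h0.le, ?_⟩, ?_, ?_⟩
  · rw [← Finset.sum_div, ← hr0, div_self h0.ne']
  · intro c
    have h1 := opt3 h _ he (Sum.inr (Sum.inr c))
    rw [ex3c, ex3e N B t h.x1, hy1, mul_one] at h1
    exact h1
  · intro i₀
    have h1 := h.n1 i₀
    rw [fac3 t y z (fun a b c => (u1 A a b c : ℚ)), hA i₀] at h1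
    simp only [hA] at h1
    rw [hdiv (fun b e => (A i₀ b e : ℚ))]
    have h2 : ∑ i, ∑ b, ∑ e, t i * y (Sum.inr b) * (z (Sum.inr (Sum.inl e)) / r0) * (A i b e : ℚ) =
        (∑ i, t i * ∑ b, ∑ e, y (Sum.inr b) * z (Sum.inr (Sum.inl e)) * (A i b e : ℚ)) / r0 := by
      rw [fac3 t (fun b => y (Sum.inr b)) (fun e => z (Sum.inr (Sum.inl e)) / r0)
        (fun i b e => (A i b e : ℚ)), Finset.sum_div]
      refine Finset.sum_congr rfl fun i _ => ?_
      rw [hdiv (fun b e => (A i b e : ℚ)), mul_div_assoc]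
    rw [h2]
    exact div_le_div_of_nonneg_right h1 h0.le

end

end Pool.Agent.Work.MP_9d4f6b_lc.H
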