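import Pool.Agent.Work.MP_9d4f6b_lc.H.Supp
import Pool.Agent.Work.MP_9d4f6b_lc.H.Core0

/-!
MODULE CORE3 (M). No rational equilibrium with only the switches. PROOF. Let u = y (inl 1),
v = z (inl 1), 1 - u = y (inl 0), 1 - v = z (inl 0), and T = t 1 (the probability of the strategy number
1 of player 1), T0 = t 0. Player 1: the payoff of strategy 0 is 2, of a strategy i ≥ 2 it is 0 (ex1),
so t i = 0 for i ≥ 2 (opt1) and T0 + T = 1. The payoff of strategy 1 minus that of strategy 0 is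
f1 = -1 + 2 v + 2 u v. Player 2: payoff of g = 1 minus g = 0 (ex2g, no mass on c) is f2 = -1 + 2 T + 2 v.
Player 3: payoff of h = 1 minus h = 0 (ex3h) is f3 = 1 - 2 u - T u. By opt1, opt2, opt3:
(T ≠ 0 → f1 ≥ 0), (T ≠ 1 → f1 ≤ 0), (u ≠ 0 → f2 ≥ 0), (u ≠ 1 → f2 ≤ 0), (v ≠ 0 → f3 ≥ 0), (v ≠ 1 → f3 ≤ 0)
with T, u, v in [0,1]. Lemma g0: impossible for rational T, u, v. PROOF of g0: f3 = 0, f2 = 0, f1 = 0:
* v = 1: then f3 ≥ 0 so u ≤ 1/(2+T) < 1, f2 = 1 + 2T > 0, so u = 1: contradiction (u ≤ 1/2).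
* v = 0: f3 ≤ 0, so u ≥ 1/(2+T) > 0, f1 = -1 < 0, so T = 0, f2 = -1 < 0, so u = 0: contradiction.
So 0 < v < 1 and f3 = 0: u (2 + T) = 1, 0 < u < 1, so f2 = 0: 2 T + 2 v = 1. If T = 0: u = 1/2, v = 1/2,
f1 = -1 + 1 + 1/2 > 0, so T = 1: contradiction. If T = 1: v = -1/2: contradiction. So f1 = 0.
Eliminate: v = (1 - 2T)/2, u = 1/(2+T): f1 (2 + T) = 0 gives 2 T^2 + 6 T - 1 = 0, (2 T + 3)^2 = 11,
and 11 is not the square of a rational number.
-/

set_option linter.unusedVariables false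
set_option linter.style.longLine false

namespace Pool.Agent.Work.MP_9d4f6b_lc.H

theorem g0 (T u v : ℚ) (hT0 : 0 ≤ T) (hT1 : T ≤ 1) (hu0 : 0 ≤ u) (hu1 : u ≤ 1) (hv0 : 0 ≤ v)
    (hv1 : v ≤ 1) (h1 : T ≠ 0 → 0 ≤ -1 + 2 * v + 2 * u * v) (h2 : T ≠ 1 → -1 + 2 * v + 2 * u * v ≤ 0)
    (h3 : u ≠ 0 → 0 ≤ -1 + 2 * T + 2 * v) (h4 : u ≠ 1 → -1 + 2 * T + 2 * v ≤ 0)
    (h5 : v ≠ 0 → 0 ≤ 1 - 2 * u - T * u) (h6 : v ≠ 1 → 1 - 2 * u - T * u ≤ 0) : False := by
  have nv1 : v ≠ 1 := by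
    intro hv
    have a := h5 (by rw [hv]; norm_num)
    have hu : u ≠ 1 := by
      intro hu
      rw [hu] at a
      linarith
    have b := h4 hu
    rw [hv] at b
    linarith
  have nv0 : v ≠ 0 := by
    intro hv
    have a := h6 nv1
    have hT : T = 0 := by
      by_contra hT
      have b := h1 hT
      rw [hv] at b
      linarith
    have hu : u = 0 := by
      by_contra hu
      have b := h3 hu
      rw [hv, hT] at b
      linarith
    rw [hT, hu] at a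
    linarith
  have f3 : 1 - 2 * u - T * u = 0 := le_antisymm (h6 nv1) (h5 nv0)
  have nu0 : u ≠ 0 := by
    intro hu
    rw [hu] at f3
    linarith
  have nu1 : u ≠ 1 := by
    intro hu
    rw [hu] at f3
    linarith
  have f2 : -1 + 2 * T + 2 * v = 0 := le_antisymm (h4 nu1) (h3 nu0)
  have nT0 : T ≠ 0 := by
    intro hT
    have b := h2 (by rw [hT]; norm_num)
    rw [hT] at f2 f3
    have hv : v = 1 / 2 := by linarith
    have hu : u = 1 / 2 := by linarith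
    rw [hv, hu] at b
    norm_num at b
  have nT1 : T ≠ 1 := by
    intro hT
    rw [hT] at f2
    linarith
  have f1 : -1 + 2 * v + 2 * u * v = 0 := le_antisymm (h2 nT1) (h1 nT0)
  have hsq : (2 * T + 3) * (2 * T + 3) = 11 := by
    have hv : v = (1 - 2 * T) / 2 := by linarith
    rw [hv] at f1
    linear_combination (-2) * (2 + T) * f1 - 2 * (1 - 2 * T) * f3
  have hs : IsSquare (11 : ℚ) := ⟨2 * T + 3, hsq.symm⟩
  revert hs
  rw [Rat.isSquare_iff]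
  rintro ⟨⟨n, hn⟩, -⟩
  have hn' : n * n = 11 := by
    rw [← hn]
    rfl
  have hb : n ≤ 3 ∧ -3 ≤ n := by constructor <;> nlinarith
  obtain ⟨hb1, hb2⟩ := hb
  interval_cases n <;> omega

section

variable {K : ℕ} {Y C : Type} [Fintype Y] [Fintype C]

theorem no_switch (hK : 2 ≤ K) (N : ℕ) (A : Fin K → Y → Fin 2 → ℕ) (B : C → Fin K → Y → ℕ) {t : Fin K → ℚ}
    {y : Fin 2 ⊕ Y → ℚ} {z : Fin 2 ⊕ (Fin 2 ⊕ C) → ℚ} (h : IsNE (u1 A) u2 (u3 N B) t y z)
    (hy : ∀ b, y (Sum.inr b) = 0) (hz : ∀ c, z (Sum.inr c) = 0) : False := by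
  have hy1 : y (Sum.inl 0) + y (Sum.inl 1) = 1 := by
    have e := h.y1
    rw [Fintype.sum_sum_type, Fin.sum_univ_two] at e
    simpa [hy] using e
  have hz1 : z (Sum.inl 0) + z (Sum.inl 1) = 1 := by
    have e := h.z1
    rw [Fintype.sum_sum_type, Fin.sum_univ_two] at e
    simpa [hz] using e
  set i0 : Fin K := ⟨0, by omega⟩ with hi0
  set i1 : Fin K := ⟨1, by omega⟩ with hi1
  have h01 : i0 ≠ i1 := by
    rw [hi0, hi1]
    intro e
    have := congrArg Fin.val e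
    simp at this
  have P1 : ∀ i : Fin K, ∑ b, ∑ c, y b * z c * (u1 A i b c : ℚ) =
      ∑ g : Fin 2, ∑ h : Fin 2, y (Sum.inl g) * z (Sum.inl h) * (g1 i g h : ℚ) := by
    intro i
    rw [ex1]
    simp [hy]
  have Q0 : ∑ g : Fin 2, ∑ h : Fin 2, y (Sum.inl g) * z (Sum.inl h) * (g1 i0 g h : ℚ) = 2 := by
    simp only [hi0, g1, Fin.sum_univ_two, if_true]
    push_cast
    linear_combination (2 * (z (Sum.inl 0) + z (Sum.inl 1))) * hy1 + 2 * hz1
  have Q1 : ∑ g : Fin 2, ∑ h : Fin 2, y (Sum.inl g) * z (Sum.inl h) * (g1 i1 g h : ℚ) =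
      1 + 2 * z (Sum.inl 1) + 2 * y (Sum.inl 1) * z (Sum.inl 1) := by
    simp only [hi1, g1, Fin.sum_univ_two]
    norm_num
    have e1 : y (Sum.inl 0) = 1 - y (Sum.inl 1) := by linarith
    have e2 : z (Sum.inl 0) = 1 - z (Sum.inl 1) := by linarith
    rw [e1, e2]
    ring
  have ht0 : ∀ i : Fin K, i ≠ i0 ∧ i ≠ i1 → t i = 0 := by
    rintro i ⟨hi, hi'⟩
    by_contra hne
    have a := opt1 h i hne i0
    rw [P1, P1, Q0] at a
    have n0 : (i : ℕ) ≠ 0 := fun e => hi (Fin.ext e)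
    have n1 : (i : ℕ) ≠ 1 := fun e => hi' (Fin.ext e)
    have e : ∑ g : Fin 2, ∑ h : Fin 2, y (Sum.inl g) * z (Sum.inl h) * (g1 i g h : ℚ) = 0 := by
      simp [g1, n0, n1]
    rw [e] at a
    linarith
  have hsum : ∀ f : Fin K → ℚ, (∀ i, i ≠ i0 ∧ i ≠ i1 → f i = 0) → ∑ i, f i = f i0 + f i1 :=
    fun f hf => Fintype.sum_eq_add i0 i1 h01 hf
  have ht1 : t i0 + t i1 = 1 := by
    rw [← hsum t ht0]
    exact h.x1
  have hzc : ∑ c, z (Sum.inr (Sum.inr c)) = 0 := Finset.sum_eq_zero fun c _ => hz _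
  have R : ∀ g : Fin 2, ∑ i, ∑ c, t i * z c * (u2 (Y := Y) i (Sum.inl g) c : ℚ) =
      (∑ h : Fin 2, t i0 * z (Sum.inl h) * (g2 i0 g h : ℚ)) +
        ∑ h : Fin 2, t i1 * z (Sum.inl h) * (g2 i1 g h : ℚ) := by
    intro g
    rw [ex2g t h.x1, hzc, mul_zero, add_zero]
    apply hsum (fun i => ∑ h : Fin 2, t i * z (Sum.inl h) * (g2 i g h : ℚ))
    intro i hi
    simp [ht0 i hi]
  have S : ∀ g : Fin 2, ∑ i, ∑ b, t i * y b * (u3 N B i b (Sum.inl g) : ℚ) =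
      (N : ℚ) + ((∑ g' : Fin 2, t i0 * y (Sum.inl g') * (g3 i0 g' g : ℚ)) +
        ∑ g' : Fin 2, t i1 * y (Sum.inl g') * (g3 i1 g' g : ℚ)) := by
    intro g
    rw [ex3h N B t h.x1, h.y1, mul_one]
    congr 1
    apply hsum (fun i => ∑ g' : Fin 2, t i * y (Sum.inl g') * (g3 i g' g : ℚ))
    intro i hi
    simp [ht0 i hi]
  have e0 : t i0 = 1 - t i1 := by linarith
  have e1 : y (Sum.inl 0) = 1 - y (Sum.inl 1) := by linarith
  have e2 : z (Sum.inl 0) = 1 - z (Sum.inl 1) := by linarith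
  have R0 : ∑ i, ∑ c, t i * z c * (u2 (Y := Y) i (Sum.inl 0) c : ℚ) = 3 := by
    rw [R, e0]
    simp only [g2, Fin.sum_univ_two, e2]
    norm_num
    ring
  have R1 : ∑ i, ∑ c, t i * z c * (u2 (Y := Y) i (Sum.inl 1) c : ℚ) =
      2 + 2 * t i1 + 2 * z (Sum.inl 1) := by
    rw [R, e0]
    simp only [g2, Fin.sum_univ_two, e2, hi0, hi1]
    norm_num
    ring
  have S0 : ∑ i, ∑ b, t i * y b * (u3 N B i b (Sum.inl 0) : ℚ) = N + 3 := by
    rw [S, e0]
    simp only [g3, Fin.sum_univ_two, e1]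
    norm_num
    ring
  have S1 : ∑ i, ∑ b, t i * y b * (u3 N B i b (Sum.inl 1) : ℚ) =
      N + (4 - 2 * y (Sum.inl 1) - t i1 * y (Sum.inl 1)) := by
    rw [S, e0]
    simp only [g3, Fin.sum_univ_two, e1, hi0, hi1]
    norm_num
    ring
  have hx0 := h.x0
  have hy0 := h.y0
  have hz0 := h.z0
  refine g0 (t i1) (y (Sum.inl 1)) (z (Sum.inl 1)) (hx0 _) (by linarith [hx0 i0]) (hy0 _)
    (by linarith [hy0 (Sum.inl 0)]) (hz0 _) (by linarith [hz0 (Sum.inl 0)]) ?_ ?_ ?_ ?_ ?_ ?_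
  · intro hne
    have a := opt1 h i1 hne i0
    rw [P1, P1, Q0, Q1] at a
    linarith
  · intro hne
    have a := opt1 h i0 (fun e => hne (by linarith)) i1
    rw [P1, P1, Q0, Q1] at a
    linarith
  · intro hne
    have a := opt2 h (Sum.inl 1) hne (Sum.inl 0)
    rw [R0, R1] at a
    linarith
  · intro hne
    have a := opt2 h (Sum.inl 0) (fun e => hne (by linarith)) (Sum.inl 1)
    rw [R0, R1] at a
    linarith
  · intro hne
    have a := opt3 h (Sum.inl 1) hne (Sum.inl 0)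
    rw [S0, S1] at a
    linarith
  · intro hne
    have a := opt3 h (Sum.inl 0) (fun e => hne (by linarith)) (Sum.inl 1)
    rw [S0, S1] at a
    linarith

end

end Pool.Agent.Work.MP_9d4f6b_lc.H
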