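import Pool.Agent.Work.MP_9d4f6b_lc.H.Supp
import Pool.Agent.Work.MP_9d4f6b_lc.H.Core0

/-!
MODULE CORE4 (M). A solution of the system gives an equilibrium. PROOF. From (t, y, z) take
y' (inl g) = 0, y' (inr b) = y b, z' (inl h) = 0, z' (inr (inl e)) = z e, z' (inr (inr c)) = 0.
Player 1 (ex1): payoff of i₀ is ∑ b, ∑ e, y z A i₀, the condition n1 is the second condition of the system.
Player 2: y-strategies have payoff 1 (ex2y), g has payoff 0 (ex2g). Player 3: base strategies N (ex3e),
h: N * 1 + 0 = N (ex3h), c: ≤ N (ex3c, first condition). Use nash_of of Supp or the definition directly.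
-/

set_option linter.unusedVariables false
set_option linter.style.longLine false

namespace Pool.Agent.Work.MP_9d4f6b_lc.H

section

variable {K : ℕ} {Y C : Type} [Fintype Y] [Fintype C]

theorem ne_of_sys (N : ℕ) (A : Fin K → Y → Fin 2 → ℕ) (B : C → Fin K → Y → ℕ) (h : Sys N A B) :
    ∃ (t : Fin K → ℚ) (y : Fin 2 ⊕ Y → ℚ) (z : Fin 2 ⊕ (Fin 2 ⊕ C) → ℚ),
      IsNE (u1 A) u2 (u3 N B) t y z := by
  obtain ⟨t, y, z, ht, hy, hz, hc, hp⟩ := h
  have hz2 : ∑ e, z e = 1 := hz.2
  have hy2 : ∑ b, y b = 1 := hy.2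
  refine ⟨t, Sum.elim (fun _ => 0) y, Sum.elim (fun _ => 0) (Sum.elim z (fun _ => 0)), ?_⟩
  apply nash_of ht
  · constructor
    · rintro (g | b)
      · simp
      · simpa using hy.1 b
    · simp [Fintype.sum_sum_type, hy2]
  · constructor
    · rintro (g | e | c)
      · simp
      · simpa using hz.1 e
      · simp
    · simpa [Fintype.sum_sum_type] using hz2
  · intro a ha a'
    rw [ex1, ex1]
    simp only [Sum.elim_inl, Sum.elim_inr, zero_mul, Finset.sum_const_zero, zero_add]
    have hf : ∀ a₀, ∑ b, ∑ e, y b * z e * (A a₀ b e : ℚ) ≤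
        ∑ i, t i * ∑ b, ∑ e, y b * z e * (A i b e : ℚ) := by
      intro a₀
      refine (hp a₀).trans (le_of_eq ?_)
      apply Finset.sum_congr rfl
      intro i _
      rw [Finset.mul_sum]
      apply Finset.sum_congr rfl
      intro b _
      rw [Finset.mul_sum]
      apply Finset.sum_congr rfl
      intro e _
      ring
    have := supp_eq t (fun a₀ => ∑ b, ∑ e, y b * z e * (A a₀ b e : ℚ)) ht.1 ht.2 hf a ha
    rw [this]
    exact hf a'
  · rintro (g | b) hb b'
    · simp at hb
    · rw [ex2y t ht.2]
      simp only [Sum.elim_inl, Sum.elim_inr]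
      rw [hz2]
      rcases b' with g | b'
      · rw [ex2g t ht.2]
        simp only [Sum.elim_inl, Sum.elim_inr, mul_zero, zero_mul, Finset.sum_const_zero]
        norm_num
      · rw [ex2y t ht.2]
        simp only [Sum.elim_inl, Sum.elim_inr]
        rw [hz2]
  · rintro (h | e | c) hb c'
    · simp at hb
    · rw [ex3e N B t ht.2]
      simp only [Sum.elim_inl, Sum.elim_inr]
      rw [hy2]
      rcases c' with h | e' | c
      · rw [ex3h N B t ht.2]
        simp only [Fintype.sum_sum_type, Sum.elim_inl, Sum.elim_inr, mul_zero, zero_mul,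
          Finset.sum_const_zero, hy2, zero_add, add_zero]
        exact le_refl _
      · rw [ex3e N B t ht.2]
        simp only [Sum.elim_inl, Sum.elim_inr]
        rw [hy2]
      · rw [ex3c]
        simp only [Sum.elim_inl, Sum.elim_inr, mul_one]
        exact hc c
    · simp at hb

end

end Pool.Agent.Work.MP_9d4f6b_lc.H
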