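import Pool.Agent.Work.MP_9d4f6b_lc.H.Core1
import Pool.Agent.Work.MP_9d4f6b_lc.H.Core2
import Pool.Agent.Work.MP_9d4f6b_lc.H.Core3
import Pool.Agent.Work.MP_9d4f6b_lc.H.Core4

/-!
Assembly of the gadget (proved here).
-/

set_option linter.unusedVariables false
set_option linter.style.longLine false

namespace Pool.Agent.Work.MP_9d4f6b_lc.H

section

variable {K : ℕ} {Y C : Type} [Fintype Y] [Fintype C]

theorem core (hK : 2 ≤ K) (N : ℕ) (A : Fin K → Y → Fin 2 → ℕ) (B : C → Fin K → Y → ℕ) :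
    (∃ (t : Fin K → ℚ) (y : Fin 2 ⊕ Y → ℚ) (z : Fin 2 ⊕ (Fin 2 ⊕ C) → ℚ),
      IsNE (u1 A) u2 (u3 N B) t y z) ↔ Sys N A B := by
  constructor
  · rintro ⟨t, y, z, h⟩
    rcases dich N A B h with ⟨h1, h2⟩ | ⟨h1, h2⟩
    · exact sys_of_ne N A B h h1 h2
    · exact (no_switch hK N A B h h1 h2).elim
  · exact ne_of_sys N A B

end

end Pool.Agent.Work.MP_9d4f6b_lc.H
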