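import Pool.Agent.Work.MP_9d4f6b_lc.H.Supp
import Pool.Agent.Work.MP_9d4f6b_lc.H.Core0

/-!
MODULE CORE1 (M). Dichotomy. PROOF. Let q = ∑ b, y (inr b), so the mass of the switches g is 1 - q.
Case q < 1. Every h has payoff (ex3h) ≥ N + (1 - q) (g3 ≥ 1), every base e has payoff N q (ex3e) < N + (1 - q).
So by opt3 z (inr (inl e)) = 0 for both e. Then (ex2y) every y-strategy has payoff 0, and every g has
payoff ≥ 2 (∑ z over h and c) = 2 > 0 (ex2g, g2 ≥ 2, all the mass of z is on h and c). So by opt2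
y (inr b) = 0 for all b. Now the payoff of each constraint c is 0 (ex3c) and of each h it is > 0, so by
opt3 z (inr (inr c)) = 0. Second alternative.
Case q = 1: then y (inl g) = 0 for both g (sum of the masses is 1, all ≥ 0). Some b has y (inr b) ≠ 0.
By opt2 its payoff r0 = ∑ e, z (inr (inl e)) is ≥ the payoff of g = 0, which is ≥ 2 (1 - r0)
(ex2g, g2 ≥ 2, the mass of h and c is 1 - r0). So r0 ≥ 2/3 > 0. First alternative.
-/

set_option linter.unusedVariables false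
set_option linter.style.longLine false

namespace Pool.Agent.Work.MP_9d4f6b_lc.H

section

variable {K : ℕ} {Y C : Type} [Fintype Y] [Fintype C]

private theorem g2_ge (i g h : ℕ) : 2 ≤ g2 i g h := by
  unfold g2
  split_ifs <;> norm_num

private theorem g3_ge (i g h : ℕ) : 1 ≤ g3 i g h := by
  unfold g3
  split_ifs <;> norm_num

private theorem sum_ge {t : Fin K → ℚ} (ht : ∀ i, 0 ≤ t i) (h1 : ∑ i, t i = 1) {w : Fin 2 → ℚ}
    (hw : ∀ g, 0 ≤ w g) (c : ℕ) (f : Fin K → Fin 2 → ℕ) (hf : ∀ i g, c ≤ f i g) :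
    (c : ℚ) * ∑ g, w g ≤ ∑ i : Fin K, ∑ g : Fin 2, t i * w g * (f i g : ℚ) := by
  have e : (c : ℚ) * ∑ g, w g = ∑ i : Fin K, ∑ g : Fin 2, t i * w g * (c : ℚ) := by
    have e1 : ∀ i : Fin K, ∑ g : Fin 2, t i * w g * (c : ℚ) = t i * ((c : ℚ) * ∑ g, w g) := by
      intro i
      rw [Finset.mul_sum, Finset.mul_sum]
      exact Finset.sum_congr rfl fun g _ => by ring
    rw [Finset.sum_congr rfl fun i _ => e1 i, ← Finset.sum_mul, h1, one_mul]
  rw [e]
  refine Finset.sum_le_sum fun i _ => Finset.sum_le_sum fun g _ => ?_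
  exact mul_le_mul_of_nonneg_left (by exact_mod_cast hf i g) (mul_nonneg (ht i) (hw g))

theorem dich (N : ℕ) (A : Fin K → Y → Fin 2 → ℕ) (B : C → Fin K → Y → ℕ) {t : Fin K → ℚ}
    {y : Fin 2 ⊕ Y → ℚ} {z : Fin 2 ⊕ (Fin 2 ⊕ C) → ℚ} (h : IsNE (u1 A) u2 (u3 N B) t y z) :
    ((∀ g, y (Sum.inl g) = 0) ∧ 0 < ∑ e, z (Sum.inr (Sum.inl e))) ∨
    ((∀ b, y (Sum.inr b) = 0) ∧ ∀ c, z (Sum.inr c) = 0) := by
  classical
  have hy1 := h.y1
  have hz1 := h.z1
  rw [Fintype.sum_sum_type] at hy1 hz1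
  rw [Fintype.sum_sum_type] at hz1
  have hzc : 0 ≤ ∑ c, z (Sum.inr (Sum.inr c)) := Finset.sum_nonneg fun c _ => h.z0 _
  have hze : 0 ≤ ∑ e, z (Sum.inr (Sum.inl e)) := Finset.sum_nonneg fun c _ => h.z0 _
  have hyg : 0 ≤ ∑ g, y (Sum.inl g) := Finset.sum_nonneg fun c _ => h.y0 _
  have hyb : 0 ≤ ∑ b, y (Sum.inr b) := Finset.sum_nonneg fun c _ => h.y0 _
  -- payoff of a switch of player 2
  have pg : 2 * (1 - ∑ e, z (Sum.inr (Sum.inl e))) ≤
      ∑ i, ∑ c, t i * z c * (u2 (Y := Y) i (Sum.inl 0) c : ℚ) := by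
    rw [ex2g t h.x1 z 0]
    have := sum_ge h.x0 h.x1 (w := fun h' => z (Sum.inl h')) (fun g => h.z0 _) 2
      (fun i h' => g2 i (0 : Fin 2) h') fun i g => g2_ge _ _ _
    push_cast at this
    linarith
  by_cases hq : 0 < ∑ g, y (Sum.inl g)
  · right
    have ph : ∀ h' : Fin 2, (N : ℚ) + ∑ g, y (Sum.inl g) ≤
        ∑ i, ∑ b, t i * y b * (u3 N B i b (Sum.inl h') : ℚ) := by
      intro h'
      rw [ex3h N B t h.x1 y h', h.y1]
      have := sum_ge h.x0 h.x1 (w := fun g => y (Sum.inl g)) (fun g => h.y0 _) 1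
        (fun i g => g3 i g h') fun i g => g3_ge _ _ _
      push_cast at this
      linarith
    have ze : ∀ e, z (Sum.inr (Sum.inl e)) = 0 := by
      intro e
      by_contra hne
      have h1 := opt3 h _ hne (Sum.inl 0)
      rw [ex3e N B t h.x1 y e] at h1
      have h2 := ph 0
      have h3 : (N : ℚ) * ∑ b, y (Sum.inr b) ≤ N * 1 :=
        mul_le_mul_of_nonneg_left (by linarith) (Nat.cast_nonneg N)
      linarith
    have hze0 : ∑ e, z (Sum.inr (Sum.inl e)) = 0 := Finset.sum_eq_zero fun e _ => ze e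
    have yb : ∀ b, y (Sum.inr b) = 0 := by
      intro b
      by_contra hne
      have h1 := opt2 h _ hne (Sum.inl 0)
      rw [ex2y t h.x1 z b, hze0] at h1
      rw [hze0] at pg
      linarith
    refine ⟨yb, ?_⟩
    rintro (e | c)
    · exact ze e
    · by_contra hne
      have h1 := opt3 h _ hne (Sum.inl 0)
      rw [ex3c N B t y c] at h1
      have h2 := ph 0
      have h3 : ∑ i, ∑ b, t i * y (Sum.inr b) * (B c i b : ℚ) = 0 :=
        Finset.sum_eq_zero fun i _ => Finset.sum_eq_zero fun b _ => by rw [yb b]; ring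
      rw [h3] at h1
      have h4 : (0 : ℚ) ≤ N := Nat.cast_nonneg N
      linarith
  · left
    have hq0 : ∑ g, y (Sum.inl g) = 0 := le_antisymm (not_lt.1 hq) hyg
    have yg : ∀ g, y (Sum.inl g) = 0 := fun g =>
      (Finset.sum_eq_zero_iff_of_nonneg fun g _ => h.y0 _).1 hq0 g (Finset.mem_univ _)
    refine ⟨yg, ?_⟩
    obtain ⟨b, hb⟩ : ∃ b, y (Sum.inr b) ≠ 0 := by
      by_contra hc
      push Not at hc
      rw [hq0, Finset.sum_eq_zero fun b _ => hc b] at hy1
      norm_num at hy1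
    have h1 := opt2 h _ hb (Sum.inl 0)
    rw [ex2y t h.x1 z b] at h1
    linarith

end

end Pool.Agent.Work.MP_9d4f6b_lc.H
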