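import Pool.Agent.Work.MP_9d4f6b_lc.H.Defs

/-!
MODULE EQS (M). What a solution (t, y, z) of ZSys says. Notation: P0 = y (inl 0), P1 = y (inl 1),
V s = y (inr (s,0)) - y (inr (s,1)), x l = ∑ i, XX j l i * t i.
(1) interior: t i₀ ≥ 1 / (3 K) > 0 for all i₀: the constraint inl i₀ says 1 - 3 K t i₀ ≤ 0.
(2) constraints ρ = 0, 1: y (inr (s,0)) + y (inr (s,1)) = P0.
(3) constraints ρ = 2, 3: V s = x (let' s) * (previous value), previous = P0 if s.2 = 0, else V (s.1, s.2-1).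
(4) since all t i > 0 and K ≥ 3, the payoffs ∑ b, ∑ e, y b z e AZ i b e of all i are equal (each is ≤ the
t-average, weights positive); for i = 2 it is 0; so E1: P1 z0 - P0 z1 = 0 and E2: P1 z1 - L z0 = 0,
L = ∑ over (τ, p) with p + 1 = r of co τ * V (τ, p).
All sums over YY are split with Fintype.sum_sum_type, Fintype.sum_prod_type, Fin.sum_univ_two and the
indicator functions are evaluated with Finset.sum_ite_eq. The bilinear sums are ∑ i, t i * XX … times
∑ b, y b * cQ … .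
-/

set_option linter.unusedVariables false
set_option linter.style.longLine false

namespace Pool.Agent.Work.MP_9d4f6b_lc.H

section

variable {K T r : ℕ}

/-- value of V_s -/
def Vv (y : YY T r → ℚ) (s : Pos T r) : ℚ := y (Sum.inr (s, 0)) - y (Sum.inr (s, 1))

/-- value of the previous position -/
def Qv (y : YY T r → ℚ) (s : Pos T r) : ℚ :=
  if h : s.2.val = 0 then y (Sum.inl 0) else Vv y (s.1, ⟨s.2.val - 1, by omega⟩)

/-- the point x -/
def xx (j : Fin K) (t : Fin K → ℚ) (l : Fin K) : ℚ := ∑ i, (XX j l i : ℚ) * t i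

/-- value of L -/
def Lv (co : Fin T → ℤ) (y : YY T r → ℚ) : ℚ :=
  ∑ τ, ∑ p : Fin r, if p.val + 1 = r then (co τ : ℚ) * Vv y (τ, p) else 0

theorem sum_cP (y : YY T r → ℚ) : ∑ b, y b * ((cP b : ℤ) : ℚ) = y (Sum.inl 0) := by
  rw [Fintype.sum_sum_type, Fin.sum_univ_two]
  simp [cP]

theorem sum_cV (y : YY T r → ℚ) (s : Pos T r) : ∑ b, y b * ((cV s b : ℤ) : ℚ) = Vv y s := by
  rw [Fintype.sum_sum_type]
  have h0 : ∑ e : Fin 2, y (Sum.inl e) * ((cV s (Sum.inl e) : ℤ) : ℚ) = 0 := by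
    simp [cV]
  rw [h0, zero_add, Fintype.sum_prod_type, Finset.sum_eq_single s]
  · rw [Fin.sum_univ_two]
    unfold Vv
    simp [cV]
    ring
  · intro s' _ hne
    rw [Fin.sum_univ_two]
    simp [cV, hne]
  · intro h
    exact absurd (Finset.mem_univ _) h

theorem sum_cS (y : YY T r → ℚ) (s : Pos T r) :
    ∑ b, y b * ((cS s b : ℤ) : ℚ) = y (Sum.inr (s, 0)) + y (Sum.inr (s, 1)) := by
  rw [Fintype.sum_sum_type]
  have h0 : ∑ e : Fin 2, y (Sum.inl e) * ((cS s (Sum.inl e) : ℤ) : ℚ) = 0 := by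
    simp [cS]
  rw [h0, zero_add, Fintype.sum_prod_type, Finset.sum_eq_single s]
  · rw [Fin.sum_univ_two]
    simp [cS]
  · intro s' _ hne
    rw [Fin.sum_univ_two]
    simp [cS, hne]
  · intro h
    exact absurd (Finset.mem_univ _) h

theorem sum_cQ (y : YY T r → ℚ) (s : Pos T r) : ∑ b, y b * ((cQ s b : ℤ) : ℚ) = Qv y s := by
  unfold cQ Qv
  split_ifs with h
  · exact sum_cP y
  · exact sum_cV y _

/-- bilinear sums with a factor depending on b only -/
theorem sum_right {t : Fin K → ℚ} (ht : ∑ i, t i = 1) (y : YY T r → ℚ) (f : YY T r → ℚ) :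
    ∑ i, ∑ b, t i * y b * f b = ∑ b, y b * f b := by
  have : ∀ i : Fin K, ∑ b, t i * y b * f b = t i * ∑ b, y b * f b := by
    intro i
    rw [Finset.mul_sum]
    exact Finset.sum_congr rfl (fun b _ => by ring)
  rw [Finset.sum_congr rfl (fun i _ => this i), ← Finset.sum_mul, ht, one_mul]

theorem sum_both (t : Fin K → ℚ) (y : YY T r → ℚ) (a : Fin K → ℚ) (f : YY T r → ℚ) :
    ∑ i, ∑ b, t i * y b * (a i * f b) = (∑ i, a i * t i) * ∑ b, y b * f b := by
  rw [Finset.sum_mul]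
  apply Finset.sum_congr rfl
  intro i _
  rw [Finset.mul_sum]
  exact Finset.sum_congr rfl (fun b _ => by ring)

theorem val_inl (j : Fin K) (let' : Pos T r → Fin K) {t : Fin K → ℚ} {y : YY T r → ℚ}
    (ht : ∑ i, t i = 1) (hy : ∑ b, y b = 1) (i₀ : Fin K) :
    ∑ i, ∑ b, t i * y b * ((BZ j let' (Sum.inl i₀) i b : ℤ) : ℚ) = 1 - 3 * K * t i₀ := by
  have h1 : ∀ i : Fin K, ∑ b : YY T r, t i * y b * ((BZ j let' (Sum.inl i₀) i b : ℤ) : ℚ) =
      t i - (if i = i₀ then 3 * K * t i₀ else 0) := by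
    intro i
    have h2 : ∀ b : YY T r, t i * y b * ((BZ j let' (Sum.inl i₀) i b : ℤ) : ℚ) =
        (t i - (if i = i₀ then 3 * K * t i₀ else 0)) * y b := by
      intro b
      by_cases h : i = i₀
      · subst h
        simp [BZ]
        ring
      · simp [BZ, h]
    rw [Finset.sum_congr rfl (fun b _ => h2 b), ← Finset.mul_sum, hy, mul_one]
  rw [Finset.sum_congr rfl (fun i _ => h1 i), Finset.sum_sub_distrib, ht]
  simp

theorem val0 (j : Fin K) (let' : Pos T r → Fin K) {t : Fin K → ℚ} (y : YY T r → ℚ)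
    (ht : ∑ i, t i = 1) (s : Pos T r) :
    ∑ i, ∑ b, t i * y b * ((BZ j let' (Sum.inr (s, 0)) i b : ℤ) : ℚ) =
      y (Sum.inr (s, 0)) + y (Sum.inr (s, 1)) - y (Sum.inl 0) := by
  have h1 : ∀ (i : Fin K) (b : YY T r), ((BZ j let' (Sum.inr (s, 0)) i b : ℤ) : ℚ) =
      (cS s b : ℚ) - (cP b : ℚ) := by
    intro i b
    simp [BZ]
  rw [Finset.sum_congr rfl (fun i _ => Finset.sum_congr rfl (fun b _ => by rw [h1 i b])),
    sum_right ht y (fun b => (cS s b : ℚ) - (cP b : ℚ)), ← sum_cS y s, ← sum_cP y,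
    ← Finset.sum_sub_distrib]
  exact Finset.sum_congr rfl (fun b _ => by ring)

theorem val1 (j : Fin K) (let' : Pos T r → Fin K) {t : Fin K → ℚ} (y : YY T r → ℚ)
    (ht : ∑ i, t i = 1) (s : Pos T r) :
    ∑ i, ∑ b, t i * y b * ((BZ j let' (Sum.inr (s, 1)) i b : ℤ) : ℚ) =
      y (Sum.inl 0) - (y (Sum.inr (s, 0)) + y (Sum.inr (s, 1))) := by
  have h1 : ∀ (i : Fin K) (b : YY T r), ((BZ j let' (Sum.inr (s, 1)) i b : ℤ) : ℚ) =
      (cP b : ℚ) - (cS s b : ℚ) := by
    intro i b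
    simp [BZ]
  rw [Finset.sum_congr rfl (fun i _ => Finset.sum_congr rfl (fun b _ => by rw [h1 i b])),
    sum_right ht y (fun b => (cP b : ℚ) - (cS s b : ℚ)), ← sum_cS y s, ← sum_cP y,
    ← Finset.sum_sub_distrib]
  exact Finset.sum_congr rfl (fun b _ => by ring)

theorem val2 (j : Fin K) (let' : Pos T r → Fin K) {t : Fin K → ℚ} (y : YY T r → ℚ)
    (ht : ∑ i, t i = 1) (s : Pos T r) :
    ∑ i, ∑ b, t i * y b * ((BZ j let' (Sum.inr (s, 2)) i b : ℤ) : ℚ) =
      Vv y s - xx j t (let' s) * Qv y s := by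
  have h1 : ∀ (i : Fin K) (b : YY T r), t i * y b * ((BZ j let' (Sum.inr (s, 2)) i b : ℤ) : ℚ) =
      t i * y b * (cV s b : ℚ) - t i * y b * ((XX j (let' s) i : ℚ) * (cQ s b : ℚ)) := by
    intro i b
    have : (BZ j let' (Sum.inr (s, 2)) i b : ℤ) = cV s b - XX j (let' s) i * cQ s b := by
      simp [BZ]
    rw [this]
    push_cast
    ring
  rw [Finset.sum_congr rfl (fun i _ => Finset.sum_congr rfl (fun b _ => h1 i b))]
  simp only [Finset.sum_sub_distrib]
  rw [sum_right ht y (fun b => (cV s b : ℚ)), sum_both, sum_cV, sum_cQ]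
  rfl

theorem val3 (j : Fin K) (let' : Pos T r → Fin K) {t : Fin K → ℚ} (y : YY T r → ℚ)
    (ht : ∑ i, t i = 1) (s : Pos T r) :
    ∑ i, ∑ b, t i * y b * ((BZ j let' (Sum.inr (s, 3)) i b : ℤ) : ℚ) =
      xx j t (let' s) * Qv y s - Vv y s := by
  have h1 : ∀ (i : Fin K) (b : YY T r), t i * y b * ((BZ j let' (Sum.inr (s, 3)) i b : ℤ) : ℚ) =
      t i * y b * ((XX j (let' s) i : ℚ) * (cQ s b : ℚ)) - t i * y b * (cV s b : ℚ) := by
    intro i b
    have : (BZ j let' (Sum.inr (s, 3)) i b : ℤ) = XX j (let' s) i * cQ s b - cV s b := by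
      simp [BZ]
    rw [this]
    push_cast
    ring
  rw [Finset.sum_congr rfl (fun i _ => Finset.sum_congr rfl (fun b _ => h1 i b))]
  simp only [Finset.sum_sub_distrib]
  rw [sum_right ht y (fun b => (cV s b : ℚ)), sum_both, sum_cV, sum_cQ]
  rfl

/-- the constraints in readable form -/
theorem con_iff (j : Fin K) (let' : Pos T r → Fin K) {t : Fin K → ℚ} {y : YY T r → ℚ}
    (ht : IsPr t) (hy : IsPr y) :
    (∀ c, ∑ i, ∑ b, t i * y b * (BZ j let' c i b : ℚ) ≤ 0) ↔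
      (∀ i, 1 ≤ 3 * K * t i) ∧
      (∀ s, y (Sum.inr (s, 0)) + y (Sum.inr (s, 1)) = y (Sum.inl 0)) ∧
      (∀ s, Vv y s = xx j t (let' s) * Qv y s) := by
  constructor
  · intro h
    refine ⟨?_, ?_, ?_⟩
    · intro i
      have := h (Sum.inl i)
      rw [val_inl j let' ht.2 hy.2] at this
      linarith
    · intro s
      have a := h (Sum.inr (s, 0))
      have b := h (Sum.inr (s, 1))
      rw [val0 j let' y ht.2] at a
      rw [val1 j let' y ht.2] at b
      linarith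
    · intro s
      have a := h (Sum.inr (s, 2))
      have b := h (Sum.inr (s, 3))
      rw [val2 j let' y ht.2] at a
      rw [val3 j let' y ht.2] at b
      linarith
  · rintro ⟨h1, h2, h3⟩ (i | ⟨s, ρ⟩)
    · rw [val_inl j let' ht.2 hy.2]
      have := h1 i
      linarith
    · fin_cases ρ
      · have := val0 j let' y ht.2 s
        rw [h2 s, sub_self] at this
        exact le_of_eq this
      · have := val1 j let' y ht.2 s
        rw [h2 s, sub_self] at this
        exact le_of_eq this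
      · have := val2 j let' y ht.2 s
        rw [h3 s, sub_self] at this
        exact le_of_eq this
      · have := val3 j let' y ht.2 s
        rw [h3 s, sub_self] at this
        exact le_of_eq this

/-- the payoffs of player 1 -/
theorem pay0 (co : Fin T → ℤ) (y : YY T r → ℚ) (z : Fin 2 → ℚ) :
    ∑ b, ∑ e, y b * z e * (AZ co 0 b e : ℚ) = y (Sum.inl 1) * z 0 - y (Sum.inl 0) * z 1 := by
  rw [Fintype.sum_sum_type, Fin.sum_univ_two]
  have h0 : ∀ b : Pos T r × Fin 2, ∑ e, y (Sum.inr b) * z e * (AZ co 0 (Sum.inr b) e : ℚ) = 0 := by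
    intro b
    simp [AZ]
  rw [Finset.sum_eq_zero (fun b _ => h0 b)]
  simp only [Fin.sum_univ_two]
  simp [AZ]
  ring

theorem pay1 (co : Fin T → ℤ) (y : YY T r → ℚ) (z : Fin 2 → ℚ) :
    ∑ b, ∑ e, y b * z e * (AZ co 1 b e : ℚ) = y (Sum.inl 1) * z 1 - Lv co y * z 0 := by
  rw [Fintype.sum_sum_type, Fin.sum_univ_two]
  have h0 : ∀ b : Pos T r × Fin 2, ∑ e, y (Sum.inr b) * z e * (AZ co 1 (Sum.inr b) e : ℚ) =
      - (y (Sum.inr b) * (cL co (Sum.inr b) : ℚ)) * z 0 := by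
    intro b
    rw [Fin.sum_univ_two]
    simp [AZ]
    ring
  rw [Finset.sum_congr rfl (fun b _ => h0 b), ← Finset.sum_mul, Finset.sum_neg_distrib]
  have hL : ∑ b : Pos T r × Fin 2, y (Sum.inr b) * (cL co (Sum.inr b) : ℚ) = Lv co y := by
    unfold Lv
    rw [Fintype.sum_prod_type, Fintype.sum_prod_type]
    apply Finset.sum_congr rfl
    intro τ _
    apply Finset.sum_congr rfl
    intro p _
    rw [Fin.sum_univ_two]
    by_cases hp : p.val + 1 = r
    · simp [cL, hp, Vv]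
      ring
    · simp [cL, hp]
  rw [hL]
  simp only [Fin.sum_univ_two]
  simp [AZ, cL]
  ring

theorem pay2 (co : Fin T → ℤ) (y : YY T r → ℚ) (z : Fin 2 → ℚ) (i : ℕ) (hi : 2 ≤ i) :
    ∑ b, ∑ e, y b * z e * (AZ co i b e : ℚ) = 0 := by
  apply Finset.sum_eq_zero
  intro b _
  apply Finset.sum_eq_zero
  intro e _
  have h0 : i ≠ 0 := by omega
  have h1 : i ≠ 1 := by omega
  simp [AZ, h0, h1]

end

end Pool.Agent.Work.MP_9d4f6b_lc.H
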