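import Pool.Agent.Work.MP_9d4f6b_lc.H.Eqs

/-!
MODULE FULL (S). PROOF. All t i > 0 (3 K t i ≥ 1). Put F i = ∑ b, ∑ e, y b z e AZ i b e and M = ∑ t i F i
(move t i out of the double sum). F i ≤ M for all i, ∑ t i (M - F i) = 0, so F i = M for all i. F 2 = 0
(pay2; the strategy number 2 exists since K ≥ 3), so M = 0, F 0 = 0 and F 1 = 0 (pay0, pay1).
-/

set_option linter.unusedVariables false
set_option linter.style.longLine false

namespace Pool.Agent.Work.MP_9d4f6b_lc.H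

section

variable {K T r : ℕ}

theorem both_zero (hK : 3 ≤ K) (co : Fin T → ℤ) {t : Fin K → ℚ} {y : YY T r → ℚ} {z : Fin 2 → ℚ}
    (ht : IsPr t) (hi : ∀ i, 1 ≤ 3 * K * t i)
    (h : ∀ i₀ : Fin K, ∑ b, ∑ e, y b * z e * (AZ co i₀ b e : ℚ) ≤
      ∑ i : Fin K, ∑ b, ∑ e, t i * y b * z e * (AZ co i b e : ℚ)) :
    y (Sum.inl 1) * z 0 = y (Sum.inl 0) * z 1 ∧ y (Sum.inl 1) * z 1 = Lv co y * z 0 := by
  classical
  set F : Fin K → ℚ := fun i => ∑ b, ∑ e, y b * z e * (AZ co i b e : ℚ) with hF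
  have hM : (∑ i : Fin K, ∑ b, ∑ e, t i * y b * z e * (AZ co i b e : ℚ)) = ∑ i, t i * F i := by
    apply Finset.sum_congr rfl
    intro i _
    rw [hF, Finset.mul_sum]
    apply Finset.sum_congr rfl
    intro b _
    rw [Finset.mul_sum]
    apply Finset.sum_congr rfl
    intro e _
    ring
  have h' : ∀ i, F i ≤ ∑ i, t i * F i := fun i => by rw [← hM]; exact h i
  have hKpos : (0 : ℚ) < 3 * K := by
    have : (0 : ℚ) < K := by exact_mod_cast (by omega : 0 < K)
    linarith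
  have htp : ∀ i, 0 < t i := by
    intro i
    by_contra hc
    have h1 := hi i
    have : (3 : ℚ) * K * t i ≤ 0 := mul_nonpos_of_nonneg_of_nonpos hKpos.le (not_lt.1 hc)
    linarith
  have hsum : ∑ i, t i * ((∑ i, t i * F i) - F i) = 0 := by
    simp only [mul_sub, Finset.sum_sub_distrib, ← Finset.sum_mul]
    rw [ht.2]; ring
  have hz : ∀ i, F i = ∑ i, t i * F i := by
    intro i
    have h1 := (Finset.sum_eq_zero_iff_of_nonneg (fun i _ =>
      mul_nonneg (htp i).le (sub_nonneg.2 (h' i)))).1 hsum i (Finset.mem_univ _)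
    rcases mul_eq_zero.1 h1 with h2 | h2
    · exact absurd h2 (htp i).ne'
    · linarith
  have e2 : F ⟨2, by omega⟩ = 0 := pay2 co y z 2 le_rfl
  have e0 : F ⟨0, by omega⟩ = y (Sum.inl 1) * z 0 - y (Sum.inl 0) * z 1 := pay0 co y z
  have e1 : F ⟨1, by omega⟩ = y (Sum.inl 1) * z 1 - Lv co y * z 0 := pay1 co y z
  have hM0 : ∑ i, t i * F i = 0 := by rw [← hz ⟨2, by omega⟩]; exact e2
  constructor
  · have := hz ⟨0, by omega⟩
    rw [hM0, e0] at this
    linarith
  · have := hz ⟨1, by omega⟩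
    rw [hM0, e1] at this
    linarith

end

end Pool.Agent.Work.MP_9d4f6b_lc.H
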