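import Pool.Agent.Work.MP_9d4f6b_lc.H.Defs

/-!
MODULE INDEX (M). The index functions are bijections onto initial segments. PROOF. Compose
finProdFinEquiv ((τ,p) ↦ p + r * τ; then (s,σ) ↦ σ + 2 * s), finSumFinEquiv and Fin.cast; the value of
finProdFinEquiv (x, y) is y + n * x, of finSumFinEquiv (inl i) is i, of finSumFinEquiv (inr i) is m + i.
(Or: iY is injective into Fin (2 + (T*r)*2), same cardinality.)
-/

set_option linter.unusedVariables false
set_option linter.style.longLine false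

namespace Pool.Agent.Work.MP_9d4f6b_lc.H

section

variable {K T r : ℕ}

theorem exE2 : ∃ E : (Fin 2 ⊕ YY T r) ≃ Fin (2 + (2 + (T * r) * 2)), ∀ s, (E s).val = i2 s := by
  refine ⟨((Equiv.refl (Fin 2)).sumCongr (((Equiv.refl (Fin 2)).sumCongr
    ((finProdFinEquiv.prodCongr (Equiv.refl (Fin 2))).trans finProdFinEquiv)).trans
      finSumFinEquiv)).trans finSumFinEquiv, ?_⟩
  rintro (g | (e | ⟨⟨τ, p⟩, σ⟩))
  · simp [i2, finSumFinEquiv_apply_left]
  · simp [i2, iY, finSumFinEquiv_apply_left, finSumFinEquiv_apply_right]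
  · simp [i2, iY, iP, finSumFinEquiv_apply_right, finProdFinEquiv]

theorem exE3 : ∃ E : (Fin 2 ⊕ (Fin 2 ⊕ CC K T r)) ≃ Fin (2 + (2 + (K + (T * r) * 4))),
    ∀ s, (E s).val = i3 s := by
  refine ⟨((Equiv.refl (Fin 2)).sumCongr (((Equiv.refl (Fin 2)).sumCongr
    (((Equiv.refl (Fin K)).sumCongr
      ((finProdFinEquiv.prodCongr (Equiv.refl (Fin 4))).trans finProdFinEquiv)).trans
        finSumFinEquiv)).trans finSumFinEquiv)).trans finSumFinEquiv, ?_⟩
  rintro (h | (e | (k | ⟨⟨τ, p⟩, ρ⟩)))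
  · simp [i3, finSumFinEquiv_apply_left]
  · simp [i3, finSumFinEquiv_apply_left, finSumFinEquiv_apply_right]
  · simp [i3, iC, finSumFinEquiv_apply_left, finSumFinEquiv_apply_right]
  · simp [i3, iC, iP, finSumFinEquiv_apply_right, finProdFinEquiv]

end

end Pool.Agent.Work.MP_9d4f6b_lc.H
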