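import Pool.Agent.Work.MP_9d4f6b_lc.H.Defs

/-!
MODULE PRIMA (M). Primitive recursion, part A. The instance Primcodable ℤ is Primcodable.ofDenumerable
(encode (Int.ofNat n) = 2 n, encode (Int.negSucc n) = 2 n + 1): toNat z = if encode z even then encode z / 2
else 0; (-z).toNat = if encode z even then 0 else encode z / 2 + 1 (check (-0).toNat = 0: z = 0 has encode 0).
Then the functions coefN, lettN (Primrec.list_getD, nat_div, nat_mod, fin_val) and shA
(natAbs = toNat z + (-z).toNat; sum of a mapped list by list_foldl or prim_sum of Prim.lean).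
-/

set_option linter.unusedVariables false
set_option linter.style.longLine false

namespace Pool.Agent.Work.MP_9d4f6b_lc.H

section

variable {K : ℕ}

private theorem enc_ofNat (n : ℕ) : Encodable.encode (Int.ofNat n) = 2 * n := by
  show Encodable.encode (Equiv.intEquivNat (Int.ofNat n)) = 2 * n
  rfl

private theorem enc_negSucc (n : ℕ) : Encodable.encode (Int.negSucc n) = 2 * n + 1 := by
  show Encodable.encode (Equiv.intEquivNat (Int.negSucc n)) = 2 * n + 1
  rfl

theorem prim_toNat : Primrec (fun z : ℤ => z.toNat) := by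
  have h : Primrec (fun z : ℤ => if Encodable.encode z % 2 = 0 then Encodable.encode z / 2 else 0) := by
    refine Primrec.ite ?_ ?_ (Primrec.const 0)
    · exact Primrec.eq.comp (Primrec.nat_mod.comp Primrec.encode (Primrec.const 2)) (Primrec.const 0)
    · exact Primrec.nat_div.comp Primrec.encode (Primrec.const 2)
  refine h.of_eq fun z => ?_
  cases z with
  | ofNat n => 
    rw [enc_ofNat]; simp
  | negSucc n => 
    rw [enc_negSucc]
    have : (2 * n + 1) % 2 ≠ 0 := by omega
    simp [this]

theorem prim_negToNat : Primrec (fun z : ℤ => (-z).toNat) := by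
  have h : Primrec (fun z : ℤ => if Encodable.encode z % 2 = 0 then 0 else Encodable.encode z / 2 + 1) := by
    refine Primrec.ite ?_ (Primrec.const 0) ?_
    · exact Primrec.eq.comp (Primrec.nat_mod.comp Primrec.encode (Primrec.const 2)) (Primrec.const 0)
    · exact Primrec.succ.comp (Primrec.nat_div.comp Primrec.encode (Primrec.const 2))
  refine h.of_eq fun z => ?_
  cases z with
  | ofNat n => 
    rw [enc_ofNat]; simp
  | negSucc n => 
    rw [enc_negSucc]
    have : (2 * n + 1) % 2 ≠ 0 := by omega
    rw [if_neg this]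
    have h2 : (2 * n + 1) / 2 = n := by omega
    rw [h2]
    rfl

private theorem prim_coefN : Primrec (fun p : ℕ × Frm K × ℕ => coefN p.1 p.2.1 p.2.2) := by
  unfold coefN
  refine Primrec.fst.comp ?_
  exact (Primrec.list_getD ((0 : ℤ), ([] : List (Fin K)))).comp (Primrec.fst.comp Primrec.snd)
    (Primrec.nat_div.comp (Primrec.snd.comp Primrec.snd) Primrec.fst)

theorem prim_coef1 : Primrec (fun p : ℕ × Frm K × ℕ => (coefN p.1 p.2.1 p.2.2).toNat) :=
  prim_toNat.comp prim_coefN

theorem prim_coef2 : Primrec (fun p : ℕ × Frm K × ℕ => (- coefN p.1 p.2.1 p.2.2).toNat) :=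
  prim_negToNat.comp prim_coefN

theorem prim_lett (j : Fin K) : Primrec (fun p : ℕ × Frm K × ℕ => lettN j p.1 p.2.1 p.2.2) := by
  unfold lettN
  refine Primrec.fin_val.comp ?_
  refine (Primrec.list_getD j).comp ?_
    (Primrec.nat_mod.comp (Primrec.snd.comp Primrec.snd) Primrec.fst)
  refine Primrec.snd.comp ?_
  exact (Primrec.list_getD ((0 : ℤ), ([] : List (Fin K)))).comp (Primrec.fst.comp Primrec.snd)
    (Primrec.nat_div.comp (Primrec.snd.comp Primrec.snd) Primrec.fst)

theorem prim_shA : Primrec (fun D : Frm K => shA D) := by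
  unfold shA
  have h1 : Primrec (fun m : ℤ × List (Fin K) => m.1.natAbs) := by
    have : Primrec (fun m : ℤ × List (Fin K) => m.1.toNat + (-m.1).toNat) :=
      Primrec.nat_add.comp (prim_toNat.comp Primrec.fst) (prim_negToNat.comp Primrec.fst)
    exact this.of_eq fun m => by omega
  have h2 : Primrec (fun D : Frm K => D.map fun m => m.1.natAbs) :=
    Primrec.list_map Primrec.id (h1.comp Primrec.snd).to₂
  have h3 : Primrec (fun D : Frm K => (D.map fun m => m.1.natAbs).foldr (fun b s => b + s) 0) :=
    Primrec.list_foldr h2 (Primrec.const 0)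
      (Primrec.nat_add.comp (Primrec.fst.comp Primrec.snd) (Primrec.snd.comp Primrec.snd)).to₂
  exact Primrec.nat_add.comp (Primrec.const 1) h3

end

end Pool.Agent.Work.MP_9d4f6b_lc.H
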