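import Pool.Agent.Work.MP_9d4f6b_lc.H.PrimA

/-!
MODULE PRIMB (M). payA is primitive recursive: Primrec.ite with eqs of natural numbers, Primrec.nat_add etc.
It is convenient to prove the statement in composed form: for Primrec r, D, i, b, e : α → … .
-/

set_option linter.unusedVariables false
set_option linter.style.longLine false

namespace Pool.Agent.Work.MP_9d4f6b_lc.H

section

variable {K : ℕ} {α : Type} [Primcodable α]

private theorem qc (n : ℕ) : Primrec fun _ : α => n := Primrec.const n

private theorem qadd {f g : α → ℕ} (hf : Primrec f) (hg : Primrec g) :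
    Primrec fun a => f a + g a := Primrec.nat_add.comp hf hg

private theorem qsub {f g : α → ℕ} (hf : Primrec f) (hg : Primrec g) :
    Primrec fun a => f a - g a := Primrec.nat_sub.comp hf hg

private theorem qdiv {f g : α → ℕ} (hf : Primrec f) (hg : Primrec g) :
    Primrec fun a => f a / g a := Primrec.nat_div.comp hf hg

private theorem qmod {f g : α → ℕ} (hf : Primrec f) (hg : Primrec g) :
    Primrec fun a => f a % g a := Primrec.nat_mod.comp hf hg

private theorem qeq {f g : α → ℕ} (hf : Primrec f) (hg : Primrec g) :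
    PrimrecPred fun a => f a = g a := Primrec.eq.comp hf hg

private theorem qlt {f g : α → ℕ} (hf : Primrec f) (hg : Primrec g) :
    PrimrecPred fun a => f a < g a := Primrec.nat_lt.comp hf hg

theorem prim_payA {r : α → ℕ} {D : α → Frm K} {i b e : α → ℕ} (hr : Primrec r) (hD : Primrec D)
    (hi : Primrec i) (hb : Primrec b) (he : Primrec e) :
    Primrec (fun a => payA (r a) (D a) (i a) (b a) (e a)) := by
  have hs : Primrec fun a => shA (D a) := prim_shA.comp hD
  have hq : Primrec fun a => (b a - 2) / 2 := qdiv (qsub hb (qc 2)) (qc 2)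
  have h1 : Primrec fun a => (coefN (r a) (D a) ((b a - 2) / 2)).toNat :=
    prim_coef1.comp (Primrec.pair hr (Primrec.pair hD hq))
  have h2 : Primrec fun a => (- coefN (r a) (D a) ((b a - 2) / 2)).toNat :=
    prim_coef2.comp (Primrec.pair hr (Primrec.pair hD hq))
  unfold payA
  refine Primrec.ite (qeq hi (qc 0)) ?_ (Primrec.ite (qeq hi (qc 1)) ?_ hs)
  · refine Primrec.ite ((qeq hb (qc 1)).and (qeq he (qc 0))) (qadd hs (qc 1)) ?_
    exact Primrec.ite ((qeq hb (qc 0)).and (qeq he (qc 1))) (qsub hs (qc 1)) hs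
  · refine Primrec.ite (qlt hb (qc 2)) ?_ ?_
    · exact Primrec.ite ((qeq hb (qc 1)).and (qeq he (qc 1))) (qadd hs (qc 1)) hs
    · refine Primrec.ite ((qeq he (qc 0)).and (qeq (qadd (qmod hq hr) (qc 1)) hr)) ?_ hs
      refine Primrec.ite (qeq (qmod (qsub hb (qc 2)) (qc 2)) (qc 0)) ?_ ?_
      · exact qsub (qadd hs h2) h1
      · exact qsub (qadd hs h1) h2

end

end Pool.Agent.Work.MP_9d4f6b_lc.H
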